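import Pool.Agent.E8helper3.HG.Li

/-!
# Direct sums of polarised Hodge structures
-/

set_option autoImplicit false
set_option linter.unusedSectionVars false

open Matrix

namespace Pool.Agent.E8helper3.HG

section two

variable {E F : Type} [Fintype E] [DecidableEq E] [Fintype F] [DecidableEq F]

theorem rc_blocks (P : Matrix E E ℚ) (Q : Matrix F F ℚ) : rc (fromBlocks P 0 0 Q) = fromBlocks (rc P) 0 0 (rc Q) := by
  unfold rc
  rw [fromBlocks_map]
  congr 1
  · ext i j
    exact map_zero (Rat.castHom ℂ)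
  · ext i j
    exact map_zero (Rat.castHom ℂ)

/-- the inclusions -/
def iL : (E → ℂ) →ₗ[ℂ] (E ⊕ F → ℂ) where
  toFun v := Sum.elim v 0
  map_add' v w := by
    funext i
    rcases i with i | i
    · rfl
    · exact (add_zero _).symm
  map_smul' c v := by
    funext i
    rcases i with i | i
    · rfl
    · exact (mul_zero c).symm

/-- the inclusions -/
def iR : (F → ℂ) →ₗ[ℂ] (E ⊕ F → ℂ) where
  toFun v := Sum.elim 0 v
  map_add' v w := by
    funext i
    rcases i with i | i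
    · exact (add_zero _).symm
    · rfl
  map_smul' c v := by
    funext i
    rcases i with i | i
    · exact (mul_zero c).symm
    · rfl

theorem iLR (v : E ⊕ F → ℂ) : v = iL (v ∘ Sum.inl) + iR (v ∘ Sum.inr) := by
  funext i
  rcases i with i | i
  · exact (add_zero _).symm
  · exact (zero_add _).symm

theorem mul_iL (h : Matrix E E ℂ) (g : Matrix F F ℂ) (v : E → ℂ) : fromBlocks h 0 0 g *ᵥ (iL v) = iL (h *ᵥ v) := by
  rw [fromBlocks_mulVec]
  have h1 : (iL v : E ⊕ F → ℂ) ∘ Sum.inl = v := rfl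
  have h2 : (iL v : E ⊕ F → ℂ) ∘ Sum.inr = 0 := rfl
  rw [h1, h2, mulVec_zero, mulVec_zero, zero_mulVec, add_zero, add_zero]
  rfl

theorem mul_iR (h : Matrix E E ℂ) (g : Matrix F F ℂ) (v : F → ℂ) : fromBlocks h 0 0 g *ᵥ (iR v) = iR (g *ᵥ v) := by
  rw [fromBlocks_mulVec]
  have h1 : (iR v : E ⊕ F → ℂ) ∘ Sum.inl = 0 := rfl
  have h2 : (iR v : E ⊕ F → ℂ) ∘ Sum.inr = v := rfl
  rw [h1, h2, mulVec_zero, mulVec_zero, zero_mulVec, zero_add, zero_add]
  rfl

/-- inclusions and sums of eigenspaces -/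
theorem sup_map {E F : Type} [Fintype E] [DecidableEq E] [Fintype F] [DecidableEq F] {h : Matrix E E ℂ} {k : Matrix F F ℂ}
    (i : (E → ℂ) →ₗ[ℂ] (F → ℂ)) (hi : ∀ v, k *ᵥ (i v) = i (h *ᵥ v)) {ι : Type} (f : ι → ℤ) {v : E → ℂ}
    (hv : v ∈ ⨆ s : ι, Module.End.eigenspace (Matrix.mulVecLin h) (f s : ℂ)) :
    i v ∈ ⨆ s : ι, Module.End.eigenspace (Matrix.mulVecLin k) (f s : ℂ) := by
  have h1 : (⨆ s : ι, Module.End.eigenspace (Matrix.mulVecLin h) (f s : ℂ)) ≤
      (⨆ s : ι, Module.End.eigenspace (Matrix.mulVecLin k) (f s : ℂ)).comap i := by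
    refine iSup_le fun s w hw => ?_
    rw [Submodule.mem_comap]
    refine Submodule.mem_iSup_of_mem s ?_
    rw [Module.End.mem_eigenspace_iff] at hw ⊢
    show k *ᵥ (i w) = _
    have h2 : h *ᵥ w = (f s : ℂ) • w := hw
    rw [hi, h2, map_smul]
  exact h1 hv

theorem eig_L {h : Matrix E E ℂ} {g : Matrix F F ℂ} {s : ℂ} {v : E ⊕ F → ℂ} (hv : fromBlocks h 0 0 g *ᵥ v = s • v) :
    h *ᵥ (v ∘ Sum.inl) = s • (v ∘ Sum.inl) ∧ g *ᵥ (v ∘ Sum.inr) = s • (v ∘ Sum.inr) := by
  rw [fromBlocks_mulVec, zero_mulVec, zero_mulVec, add_zero, zero_add] at hv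
  constructor
  · funext i
    exact congrFun hv (Sum.inl i)
  · funext i
    exact congrFun hv (Sum.inr i)

theorem IsHS.sum {h : Matrix E E ℂ} {P : Matrix E E ℚ} {g : Matrix F F ℂ} {Q : Matrix F F ℚ} (h1 : IsHS h P) (h2 : IsHS g Q) :
    IsHS (fromBlocks h 0 0 g) (fromBlocks P 0 0 Q) where
  diag := by
    rw [eq_top_iff]
    intro v _
    rw [iLR v]
    refine Submodule.add_mem _ ?_ ?_
    · refine sup_map iL (mul_iL h g) (fun s : ℤ => s) ?_
      rw [h1.diag]
      exact Submodule.mem_top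
    · refine sup_map iR (mul_iR h g) (fun s : ℤ => s) ?_
      rw [h2.diag]
      exact Submodule.mem_top
  conj := by
    have h3 : cm (fromBlocks h 0 0 g) = fromBlocks (cm h) 0 0 (cm g) := by
      unfold cm
      rw [fromBlocks_map]
      congr 1
      · ext i j
        exact map_zero (starRingEnd ℂ)
      · ext i j
        exact map_zero (starRingEnd ℂ)
    rw [h3, h1.conj, h2.conj, fromBlocks_neg, neg_zero, neg_zero]
  skew := by
    rw [rc_blocks, fromBlocks_transpose, fromBlocks_multiply, fromBlocks_multiply, fromBlocks_add]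
    simp only [Matrix.mul_zero, Matrix.zero_mul, add_zero, zero_add, transpose_zero]
    rw [h1.skew, h2.skew, fromBlocks_zero]
  pos := by
    intro s v hv hv0
    obtain ⟨h3, h4⟩ := eig_L hv
    have h5 : v ⬝ᵥ (rc (fromBlocks P 0 0 Q) *ᵥ cj v) = (v ∘ Sum.inl) ⬝ᵥ (rc P *ᵥ cj (v ∘ Sum.inl)) +
        (v ∘ Sum.inr) ⬝ᵥ (rc Q *ᵥ cj (v ∘ Sum.inr)) := by
      rw [rc_blocks, fromBlocks_mulVec, zero_mulVec, zero_mulVec, add_zero, zero_add]
      show ∑ i, _ = _
      rw [Fintype.sum_sum_type]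
      rfl
    have h6 : ∀ {G : Type} [Fintype G] [DecidableEq G] {h' : Matrix G G ℂ} {R : Matrix G G ℚ} (_ : IsHS h' R) (w : G → ℂ),
        h' *ᵥ w = (s : ℂ) • w → 0 ≤ (Complex.I ^ s * (w ⬝ᵥ (rc R *ᵥ cj w))).re ∧
          (Complex.I ^ s * (w ⬝ᵥ (rc R *ᵥ cj w))).im = 0 := by
      intro G _ _ h' R hR w hw
      by_cases h0 : w = 0
      · rw [h0, zero_dotProduct, mul_zero]
        exact ⟨le_refl _, rfl⟩
      · exact ⟨(hR.pos s w hw h0).1.le, (hR.pos s w hw h0).2⟩
    have h7 := h6 h1 _ h3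
    have h8 := h6 h2 _ h4
    rw [h5, mul_add, Complex.add_re, Complex.add_im, h7.2, h8.2]
    refine ⟨?_, add_zero 0⟩
    by_cases h9 : v ∘ Sum.inl = 0
    · have h10 : v ∘ Sum.inr ≠ 0 := by
        intro h11
        apply hv0
        funext i
        rcases i with i | i
        · exact congrFun h9 i
        · exact congrFun h11 i
      exact add_pos_of_nonneg_of_pos h7.1 (h2.pos s _ h4 h10).1
    · exact add_pos_of_pos_of_nonneg (h1.pos s _ h3 h9).1 h8.1

theorem A1.sum {h B : Matrix E E ℂ} {e : E → ℤ} {g C : Matrix F F ℂ} {f : F → ℤ} (h1 : A1 h B e) (h2 : A1 g C f) :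
    A1 (fromBlocks h 0 0 g) (fromBlocks B 0 0 C) (Sum.elim e f) := by
  intro s v hv
  obtain ⟨h3, h4⟩ := eig_L hv
  rw [iLR v]
  refine Submodule.add_mem _ ?_ ?_
  · have h5 : iL (F := F) (v ∘ Sum.inl) ∈ (Submodule.span ℂ {v | ∃ i, s ≤ e i ∧ v = B.col i}).map iL :=
      Submodule.mem_map_of_mem (h1 s _ h3)
    rw [Submodule.map_span] at h5
    refine Submodule.span_mono ?_ h5
    rintro _ ⟨_, ⟨i, hi, rfl⟩, rfl⟩
    refine ⟨Sum.inl i, hi, ?_⟩
    funext j
    rcases j with j | j <;> rfl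
  · have h5 : iR (E := E) (v ∘ Sum.inr) ∈ (Submodule.span ℂ {v | ∃ i, s ≤ f i ∧ v = C.col i}).map iR :=
      Submodule.mem_map_of_mem (h2 s _ h4)
    rw [Submodule.map_span] at h5
    refine Submodule.span_mono ?_ h5
    rintro _ ⟨_, ⟨i, hi, rfl⟩, rfl⟩
    refine ⟨Sum.inr i, hi, ?_⟩
    funext j
    rcases j with j | j <;> rfl

theorem A2.sum {h B : Matrix E E ℂ} {e : E → ℤ} {g C : Matrix F F ℂ} {f : F → ℤ} (h1 : A2 h B e) (h2 : A2 g C f) :
    A2 (fromBlocks h 0 0 g) (fromBlocks B 0 0 C) (Sum.elim e f) := by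
  rintro (i | i)
  · have h3 := sup_map iL (mul_iL h g) (fun r : {r : ℤ // e i ≤ r} => (r : ℤ)) (h1 i)
    have h4 : (fromBlocks B 0 0 C).col (Sum.inl i) = iL (B.col i) := by
      funext j
      rcases j with j | j <;> rfl
    rw [h4]
    exact h3
  · have h3 := sup_map iR (mul_iR h g) (fun r : {r : ℤ // f i ≤ r} => (r : ℤ)) (h2 i)
    have h4 : (fromBlocks B 0 0 C).col (Sum.inr i) = iR (C.col i) := by
      funext j
      rcases j with j | j <;> rfl
    rw [h4]
    exact h3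

end two

section many

variable {E : Type} [Fintype E] [DecidableEq E] {k : ℕ}

/-- the inclusions -/
def iJ (j : Fin k) : (E → ℂ) →ₗ[ℂ] (E × Fin k → ℂ) where
  toFun v := fun p => if p.2 = j then v p.1 else 0
  map_add' v w := by
    funext p
    show (if p.2 = j then v p.1 + w p.1 else 0) = (if p.2 = j then v p.1 else 0) + if p.2 = j then w p.1 else 0
    split_ifs
    · rfl
    · exact (add_zero _).symm
  map_smul' c v := by
    funext p
    show (if p.2 = j then c * v p.1 else 0) = c * if p.2 = j then v p.1 else 0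
    split_ifs
    · rfl
    · exact (mul_zero _).symm

theorem iJ_sum (v : E × Fin k → ℂ) : v = ∑ j, iJ j fun a => v (a, j) := by
  funext p
  rw [Finset.sum_apply]
  show v p = ∑ j, if p.2 = j then v (p.1, j) else 0
  rw [Finset.sum_ite_eq, if_pos (Finset.mem_univ _)]

theorem bd_mulVec (M : Fin k → Matrix E E ℂ) (v : E × Fin k → ℂ) (a : E) (j : Fin k) :
    (blockDiagonal M *ᵥ v) (a, j) = (M j *ᵥ fun b => v (b, j)) a := by
  show ∑ p : E × Fin k, blockDiagonal M (a, j) p * v p = ∑ b, M j a b * v (b, j)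
  rw [Fintype.sum_prod_type]
  refine Finset.sum_congr rfl fun b _ => ?_
  rw [Finset.sum_eq_single j]
  · rw [blockDiagonal_apply_eq]
  · intro i _ hi
    rw [blockDiagonal_apply_ne _ _ _ (Ne.symm hi), zero_mul]
  · intro h
    exact absurd (Finset.mem_univ _) h

theorem mul_iJ (M : Fin k → Matrix E E ℂ) (j : Fin k) (v : E → ℂ) : blockDiagonal M *ᵥ (iJ j v) = iJ j (M j *ᵥ v) := by
  funext ⟨a, i⟩
  rw [bd_mulVec]
  show _ = if i = j then (M j *ᵥ v) a else 0
  by_cases h : i = j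
  · subst h
    rw [if_pos rfl]
    congr 2
    funext b
    exact if_pos rfl
  · rw [if_neg h]
    have h1 : (fun b => iJ j v (b, i)) = (0 : E → ℂ) := by
      funext b
      exact if_neg h
    rw [h1, mulVec_zero]
    rfl

theorem eig_J {M : Fin k → Matrix E E ℂ} {s : ℂ} {v : E × Fin k → ℂ} (hv : blockDiagonal M *ᵥ v = s • v) (j : Fin k) :
    M j *ᵥ (fun a => v (a, j)) = s • fun a => v (a, j) := by
  funext a
  rw [← bd_mulVec, hv]
  rfl

theorem rc_bd (Q : Fin k → Matrix E E ℚ) : rc (blockDiagonal Q) = blockDiagonal fun j => rc (Q j) := by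
  unfold rc
  rw [blockDiagonal_map _ _ (map_zero _)]

theorem IsHS.prod {h : Fin k → Matrix E E ℂ} {Q : Fin k → Matrix E E ℚ} (hh : ∀ j, IsHS (h j) (Q j)) :
    IsHS (blockDiagonal h) (blockDiagonal Q) where
  diag := by
    rw [eq_top_iff]
    intro v _
    rw [iJ_sum v]
    refine Submodule.sum_mem _ fun j _ => ?_
    refine sup_map (iJ j) (mul_iJ h j) (fun s : ℤ => s) ?_
    rw [(hh j).diag]
    exact Submodule.mem_top
  conj := by
    unfold cm
    rw [blockDiagonal_map _ _ (map_zero _), ← blockDiagonal_neg]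
    congr 1
    funext j
    exact (hh j).conj
  skew := by
    rw [rc_bd, blockDiagonal_transpose, ← blockDiagonal_mul, ← blockDiagonal_mul, ← blockDiagonal_add]
    have h1 : (fun j => (h j)ᵀ * rc (Q j)) + (fun j => rc (Q j) * h j) = 0 := by
      funext j
      exact (hh j).skew
    rw [h1, blockDiagonal_zero]
  pos := by
    intro s v hv hv0
    have h3 := eig_J hv
    have h5 : v ⬝ᵥ (rc (blockDiagonal Q) *ᵥ cj v) = ∑ j, (fun a => v (a, j)) ⬝ᵥ (rc (Q j) *ᵥ cj fun a => v (a, j)) := by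
      rw [rc_bd]
      show ∑ p : E × Fin k, v p * _ = _
      rw [Fintype.sum_prod_type, Finset.sum_comm]
      refine Finset.sum_congr rfl fun j _ => ?_
      refine Finset.sum_congr rfl fun a _ => ?_
      rw [bd_mulVec]
      rfl
    have h6 : ∀ j, 0 ≤ (Complex.I ^ s * ((fun a => v (a, j)) ⬝ᵥ (rc (Q j) *ᵥ cj fun a => v (a, j)))).re ∧
          (Complex.I ^ s * ((fun a => v (a, j)) ⬝ᵥ (rc (Q j) *ᵥ cj fun a => v (a, j)))).im = 0 := by
      intro j
      by_cases h0 : (fun a => v (a, j)) = 0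
      · rw [h0, zero_dotProduct, mul_zero]
        exact ⟨le_refl _, rfl⟩
      · exact ⟨((hh j).pos s _ (h3 j) h0).1.le, ((hh j).pos s _ (h3 j) h0).2⟩
    obtain ⟨j, hj⟩ : ∃ j, (fun a => v (a, j)) ≠ 0 := by
      by_contra hcon
      push Not at hcon
      apply hv0
      funext ⟨a, j⟩
      exact congrFun (hcon j) a
    rw [h5, Finset.mul_sum, Complex.re_sum, Complex.im_sum]
    exact ⟨Finset.sum_pos' (fun j _ => (h6 j).1) ⟨j, Finset.mem_univ _, ((hh j).pos s _ (h3 j) hj).1⟩,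
      Finset.sum_eq_zero fun j _ => (h6 j).2⟩

theorem A1.prod {h B : Fin k → Matrix E E ℂ} {e : Fin k → E → ℤ} (hh : ∀ j, A1 (h j) (B j) (e j)) :
    A1 (blockDiagonal h) (blockDiagonal B) fun p => e p.2 p.1 := by
  intro s v hv
  rw [iJ_sum v]
  refine Submodule.sum_mem _ fun j _ => ?_
  have h5 : iJ j (fun a => v (a, j)) ∈ (Submodule.span ℂ {v | ∃ i, s ≤ e j i ∧ v = (B j).col i}).map (iJ j) :=
    Submodule.mem_map_of_mem (hh j s _ (eig_J hv j))
  rw [Submodule.map_span] at h5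
  refine Submodule.span_mono ?_ h5
  rintro _ ⟨_, ⟨i, hi, rfl⟩, rfl⟩
  refine ⟨(i, j), hi, ?_⟩
  funext ⟨a, l⟩
  show (if l = j then B j a i else 0) = blockDiagonal B (a, l) (i, j)
  by_cases h : l = j
  · subst h
    rw [if_pos rfl, blockDiagonal_apply_eq]
  · rw [if_neg h, blockDiagonal_apply_ne _ _ _ h]

theorem A2.prod {h B : Fin k → Matrix E E ℂ} {e : Fin k → E → ℤ} (hh : ∀ j, A2 (h j) (B j) (e j)) :
    A2 (blockDiagonal h) (blockDiagonal B) fun p => e p.2 p.1 := by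
  rintro ⟨i, j⟩
  have h3 := sup_map (iJ j) (mul_iJ h j) (fun r : {r : ℤ // e j i ≤ r} => (r : ℤ)) (hh j i)
  have h4 : (blockDiagonal B).col (i, j) = iJ j ((B j).col i) := by
    funext ⟨a, l⟩
    show blockDiagonal B (a, l) (i, j) = if l = j then B j a i else 0
    by_cases h : l = j
    · subst h
      rw [if_pos rfl, blockDiagonal_apply_eq]
    · rw [if_neg h, blockDiagonal_apply_ne _ _ _ h]
  rw [h4]
  exact h3

end many

end Pool.Agent.E8helper3.HG
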