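import Pool.Agent.E8helper3.HG.Bl
import Pool.Agent.E8helper3.AT.Sta

/-!
# Hodge tensors at one tuple
-/

set_option autoImplicit false
set_option linter.unusedSectionVars false

open PowerSeries Matrix Module

namespace Pool.Agent.E8helper3.HG

attribute [local instance 100] LieRing.ofAssociativeRing

open Pool.Agent.TH127.PT Pool.Agent.Y123.ST Pool.Agent.Y123.GN Pool.Agent.E8helper3.AT

variable {r k n : ℕ}

/-- the index set -/
abbrev IE (r k n : ℕ) : Type := Fin r ⊕ (Fin n × Fin k)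

/-- the inclusion of the index sets -/
def phi : IE r k n → IN (Fin r) k n
  | Sum.inl a => Sum.inl a
  | Sum.inr p => Sum.inr ⟨p.2, Sum.inr p.1⟩

theorem EM_phi (x : Matrix (Fin r) (Fin r) ℂ) (κ : Fin k → Matrix (Fin 2) (Fin 2) ℂ) (X : Fin k → Matrix (Fin n) (Fin n) ℂ) :
    (EM x κ X).submatrix phi phi = fromBlocks x 0 0 (blockDiagonal X) := by
  ext (I | ⟨a, i⟩) (J | ⟨b, j⟩)
  · rfl
  · rfl
  · rfl
  · show blockDiagonal' (fun i => fromBlocks (κ i) 0 0 (X i)) ⟨i, Sum.inr a⟩ ⟨j, Sum.inr b⟩ = blockDiagonal X (a, i) (b, j)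
    by_cases h : i = j
    · subst h
      rw [blockDiagonal'_apply_eq, blockDiagonal_apply_eq]
      rfl
    · rw [blockDiagonal'_apply_ne _ _ _ h, blockDiagonal_apply_ne _ _ _ h]

/-- relations of degree at most four between tensors -/
theorem rl_ev {M E : Type} [Fintype M] [DecidableEq M] [Fintype E] [DecidableEq E] {K : Subfield ℂ} {c x : Matrix M M ℂ}
    (hr : Rl K 4 c x) (φ : E → M) {a : ℕ} (ha : a ≤ 4) (t : (Fin a → E) → ℚ) {R : Matrix E E ℂ} (hR : ∀ i j, R i j ∈ K)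
    (J : Fin a → E) (h0 : ev t (fun l => (c.submatrix φ φ * R).col (J l)) = 0) :
    ev t (fun l => (x.submatrix φ φ * R).col (J l)) = 0 := by
  set P' : MvPolynomial (M × M) K := ∑ I : Fin a → E, MvPolynomial.C (t I : K) *
    ∏ l, ∑ b : E, MvPolynomial.X (φ (I l), φ b) * MvPolynomial.C (⟨R b (J l), hR _ _⟩ : K) with hP'
  have heval : ∀ y : Matrix M M ℂ, MvPolynomial.eval (fl y) (MvPolynomial.map (algebraMap K ℂ) P') =
      ev t (fun l => (y.submatrix φ φ * R).col (J l)) := by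
    intro y
    rw [hP', ev_apply, map_sum, map_sum]
    refine Finset.sum_congr rfl fun I _ => ?_
    rw [map_mul, map_mul, MvPolynomial.map_C, MvPolynomial.eval_C, map_prod, map_prod]
    congr 1
    refine Finset.prod_congr rfl fun l _ => ?_
    rw [map_sum, map_sum]
    show _ = ∑ b, y (φ (I l)) (φ b) * R b (J l)
    refine Finset.sum_congr rfl fun b _ => ?_
    rw [map_mul, map_mul, MvPolynomial.map_X, MvPolynomial.map_C, MvPolynomial.eval_X, MvPolynomial.eval_C]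
    rfl
  have hdeg : (MvPolynomial.map (algebraMap K ℂ) P').totalDegree ≤ 4 := by
    refine (Finset.sup_mono (MvPolynomial.support_map_subset (algebraMap K ℂ) P') : (MvPolynomial.map (algebraMap K ℂ) P').totalDegree ≤ P'.totalDegree).trans ?_
    rw [hP']
    refine (MvPolynomial.totalDegree_finsetSum _ _).trans ?_
    refine Finset.sup_le fun I _ => ?_
    refine (MvPolynomial.totalDegree_mul _ _).trans ?_
    rw [MvPolynomial.totalDegree_C, zero_add]
    refine (MvPolynomial.totalDegree_finsetProd _ _).trans ?_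
    refine (Finset.sum_le_card_nsmul _ _ 1 fun l _ => ?_).trans ?_
    · refine (MvPolynomial.totalDegree_finsetSum _ _).trans ?_
      refine Finset.sup_le fun b _ => ?_
      refine (MvPolynomial.totalDegree_mul _ _).trans ?_
      rw [MvPolynomial.totalDegree_C, add_zero, MvPolynomial.totalDegree_X]
    · rw [Finset.card_univ, Fintype.card_fin, smul_eq_mul, mul_one]
      exact ha
  rw [← heval] at h0 ⊢
  refine hr _ (fun m => ?_) hdeg h0
  rw [MvPolynomial.coeff_map]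
  exact (MvPolynomial.coeff m P').2

/-- the operator on one factor -/
noncomputable def iX (r : ℕ) {k n : ℕ} (i : Fin k) : Matrix (Fin n) (Fin n) ℂ →ₗ[ℂ] Matrix (IE r k n) (IE r k n) ℂ where
  toFun X := fromBlocks 0 0 0 (blockDiagonal (Pi.single i X))
  map_add' X Y := by
    rw [fromBlocks_add, Pi.single_add, blockDiagonal_add]
    simp only [add_zero]
  map_smul' c X := by
    rw [RingHom.id_apply, fromBlocks_smul, Pi.single_smul, blockDiagonal_smul]
    simp only [smul_zero]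

theorem iX_apply (i : Fin k) (X : Matrix (Fin n) (Fin n) ℂ) : iX r i X = fromBlocks 0 0 0 (blockDiagonal (Pi.single i X)) := rfl

theorem single_mul' (i : Fin k) (X Y : Matrix (Fin n) (Fin n) ℂ) :
    (fun j => (Pi.single i X : Fin k → Matrix (Fin n) (Fin n) ℂ) j * (Pi.single i Y : Fin k → Matrix (Fin n) (Fin n) ℂ) j) =
      Pi.single i (X * Y) := by
  funext j
  by_cases h : j = i
  · subst h
    rw [Pi.single_eq_same, Pi.single_eq_same, Pi.single_eq_same]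
  · rw [Pi.single_eq_of_ne h, Pi.single_eq_of_ne h, Pi.single_eq_of_ne h, Matrix.zero_mul]

theorem iX_mul (i : Fin k) (X Y : Matrix (Fin n) (Fin n) ℂ) : iX r i (X * Y) = iX r i X * iX r i Y := by
  rw [iX_apply, iX_apply, iX_apply, fromBlocks_multiply, ← blockDiagonal_mul, single_mul']
  simp only [Matrix.mul_zero, Matrix.zero_mul, add_zero, zero_add]

theorem iX_mul_h (i : Fin k) (X : Matrix (Fin n) (Fin n) ℂ) (hZ : Matrix (Fin r) (Fin r) ℂ) (h : Fin k → Matrix (Fin n) (Fin n) ℂ) :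
    iX r i X * fromBlocks hZ 0 0 (blockDiagonal h) = iX r i (X * h i) := by
  rw [iX_apply, iX_apply, fromBlocks_multiply, ← blockDiagonal_mul]
  have h1 : (fun j => (Pi.single i X : Fin k → Matrix (Fin n) (Fin n) ℂ) j * h j) = Pi.single i (X * h i) := by
    funext j
    by_cases hj : j = i
    · subst hj
      rw [Pi.single_eq_same, Pi.single_eq_same]
    · rw [Pi.single_eq_of_ne hj, Pi.single_eq_of_ne hj, Matrix.zero_mul]
  rw [h1]
  simp only [Matrix.mul_zero, Matrix.zero_mul, add_zero, zero_add]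

theorem iX_h_mul (i : Fin k) (X : Matrix (Fin n) (Fin n) ℂ) (hZ : Matrix (Fin r) (Fin r) ℂ) (h : Fin k → Matrix (Fin n) (Fin n) ℂ) :
    fromBlocks hZ 0 0 (blockDiagonal h) * iX r i X = iX r i (h i * X) := by
  rw [iX_apply, iX_apply, fromBlocks_multiply, ← blockDiagonal_mul]
  have h1 : (fun j => h j * (Pi.single i X : Fin k → Matrix (Fin n) (Fin n) ℂ) j) = Pi.single i (h i * X) := by
    funext j
    by_cases hj : j = i
    · subst hj
      rw [Pi.single_eq_same, Pi.single_eq_same]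
    · rw [Pi.single_eq_of_ne hj, Pi.single_eq_of_ne hj, Matrix.mul_zero]
  rw [h1]
  simp only [Matrix.mul_zero, Matrix.zero_mul, add_zero, zero_add]

theorem one_add_iX (i : Fin k) (X : Matrix (Fin n) (Fin n) ℂ) :
    1 + iX r i (X - 1) = fromBlocks 1 0 0 (blockDiagonal (su (n := fun _ : Fin k => n) i X)) := by
  rw [iX_apply, ← fromBlocks_one, fromBlocks_add, ← blockDiagonal_one, ← blockDiagonal_add]
  have h1 : (1 : Fin k → Matrix (Fin n) (Fin n) ℂ) + Pi.single i (X - 1) = su (n := fun _ : Fin k => n) i X := by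
    funext j
    by_cases hj : j = i
    · subst hj
      rw [Pi.add_apply, Pi.single_eq_same, su_same, Pi.one_apply]
      abel
    · rw [Pi.add_apply, Pi.single_eq_of_ne hj, su_ne hj, add_zero]
      rfl
  rw [h1]
  simp only [add_zero]

/-- the group homomorphism -/
noncomputable def eE (r : ℕ) {k n : ℕ} (i : Fin k) : (Matrix (Fin n) (Fin n) ℂ)ˣ →* (Matrix (IE r k n) (IE r k n) ℂ)ˣ where
  toFun g := ⟨1 + iX r i ((g : Matrix (Fin n) (Fin n) ℂ) - 1), 1 + iX r i (((g⁻¹ : (Matrix (Fin n) (Fin n) ℂ)ˣ) : Matrix (Fin n) (Fin n) ℂ) - 1), by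
      have h1 : ∀ A B : Matrix (Fin n) (Fin n) ℂ, (1 + iX r i (A - 1)) * (1 + iX r i (B - 1)) = 1 + iX r i (A * B - 1) := by
        intro A B
        rw [Matrix.add_mul, Matrix.mul_add, Matrix.one_mul, Matrix.mul_add, Matrix.mul_one, ← iX_mul, Matrix.one_mul, add_assoc, ← map_add, ← map_add]
        congr 2
        noncomm_ring
      rw [h1, Units.mul_inv, sub_self, map_zero, add_zero], by
      have h1 : ∀ A B : Matrix (Fin n) (Fin n) ℂ, (1 + iX r i (A - 1)) * (1 + iX r i (B - 1)) = 1 + iX r i (A * B - 1) := by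
        intro A B
        rw [Matrix.add_mul, Matrix.mul_add, Matrix.one_mul, Matrix.mul_add, Matrix.mul_one, ← iX_mul, Matrix.one_mul, add_assoc, ← map_add, ← map_add]
        congr 2
        noncomm_ring
      rw [h1, Units.inv_mul, sub_self, map_zero, add_zero]⟩
  map_one' := by
    refine Units.ext ?_
    show 1 + iX r i (((1 : (Matrix (Fin n) (Fin n) ℂ)ˣ) : Matrix (Fin n) (Fin n) ℂ) - 1) = 1
    rw [Units.val_one, sub_self, map_zero, add_zero]
  map_mul' g h := by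
    refine Units.ext ?_
    show 1 + iX r i (((g * h : (Matrix (Fin n) (Fin n) ℂ)ˣ) : Matrix (Fin n) (Fin n) ℂ) - 1) =
      (1 + iX r i ((g : Matrix (Fin n) (Fin n) ℂ) - 1)) * (1 + iX r i ((h : Matrix (Fin n) (Fin n) ℂ) - 1))
    rw [Units.val_mul, Matrix.add_mul, Matrix.mul_add, Matrix.one_mul, Matrix.mul_add, Matrix.mul_one, ← iX_mul, Matrix.one_mul, add_assoc, ← map_add,
      ← map_add]
    congr 2
    noncomm_ring

theorem eE_val (i : Fin k) (g : (Matrix (Fin n) (Fin n) ℂ)ˣ) :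
    ((eE r i g : (Matrix (IE r k n) (IE r k n) ℂ)ˣ) : Matrix (IE r k n) (IE r k n) ℂ) =
      1 + iX r i ((g : Matrix (Fin n) (Fin n) ℂ) - 1) := rfl

theorem iX_pow (i : Fin k) (A : Matrix (Fin n) (Fin n) ℂ) (m : ℕ) : iX r i A ^ (m + 1) = iX r i (A ^ (m + 1)) := by
  induction m with
  | zero => rw [zero_add, pow_one, pow_one]
  | succ m ih => rw [pow_succ, ih, ← iX_mul, ← pow_succ]

/-- exponentials -/
theorem iX_exp (i : Fin k) {A : Matrix (Fin n) (Fin n) ℂ} (hA : IsNilpotent A) (t : ℂ) :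
    IsNilpotent.exp (t • iX r i A) = 1 + iX r i (IsNilpotent.exp (t • A) - 1) := by
  obtain ⟨m, hm⟩ := hA
  have h1 : (t • A) ^ (m + 1) = 0 := by rw [smul_pow, pow_succ A, hm, Matrix.zero_mul, smul_zero]
  have h2 : (t • iX r i A) ^ (m + 1) = 0 := by rw [← map_smul, iX_pow, h1, map_zero]
  rw [IsNilpotent.exp_eq_sum h1, IsNilpotent.exp_eq_sum h2, Finset.sum_range_succ', Finset.sum_range_succ']
  rw [pow_zero, pow_zero, Nat.factorial_zero, Nat.cast_one, inv_one, one_smul, one_smul, add_sub_cancel_right, map_sum, add_comm]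
  congr 1
  refine Finset.sum_congr rfl fun l _ => ?_
  rw [← map_smul, iX_pow]
  have h3 : ∀ (q : ℚ) (Y : Matrix (Fin n) (Fin n) ℂ), iX r i (q • Y) = q • iX r i Y := by
    intro q Y
    rw [← algebraMap_smul ℂ q, ← algebraMap_smul ℂ q, map_smul]
  rw [h3]

/-- complex conjugation on the group -/
noncomputable def cU : (Matrix (Fin n) (Fin n) ℂ)ˣ →* (Matrix (Fin n) (Fin n) ℂ)ˣ :=
  Units.map ((starRingEnd ℂ).mapMatrix (m := Fin n) : Matrix (Fin n) (Fin n) ℂ →+* Matrix (Fin n) (Fin n) ℂ).toMonoidHom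

theorem cU_val (g : (Matrix (Fin n) (Fin n) ℂ)ˣ) : ((cU g : (Matrix (Fin n) (Fin n) ℂ)ˣ) : Matrix (Fin n) (Fin n) ℂ) =
    cm (g : Matrix (Fin n) (Fin n) ℂ) := rfl

theorem cm_exp {A : Matrix (Fin n) (Fin n) ℂ} (hA : IsNilpotent A) (t : ℂ) :
    cm (IsNilpotent.exp (t • A)) = IsNilpotent.exp ((starRingEnd ℂ) t • cm A) := by
  have h1 := IsNilpotent.map_exp (hA.smul t) ((starRingEnd ℂ).mapMatrix (m := Fin n))
  have h2 : (starRingEnd ℂ).mapMatrix (m := Fin n) (t • A) = (starRingEnd ℂ) t • cm A := by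
    ext i j
    exact map_mul (starRingEnd ℂ) _ _
  rw [h2] at h1
  exact h1

theorem cm_nil {A : Matrix (Fin n) (Fin n) ℂ} (hA : IsNilpotent A) : IsNilpotent (cm A) := by
  have h1 := hA.map ((starRingEnd ℂ).mapMatrix (m := Fin n))
  exact h1

variable {Ω : Matrix (Fin n) (Fin n) ℂ} {N : Matrix (Fin n) (Fin n) ℤ} {Z : Matrix (Fin n) (Fin n) ℚ⟦X⟧}

theorem cU_Gal (hc : ∀ g, Pres Ω N Z g → Pres Ω N Z (cm g)) {g : (Matrix (Fin n) (Fin n) ℂ)ˣ} (hg : g ∈ Gal Ω N Z) :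
    cU g ∈ Gal Ω N Z := by
  refine ⟨hc _ hg.1, ?_⟩
  rw [← map_inv]
  exact hc _ hg.2

theorem cU_Ug (hc : ∀ g, Pres Ω N Z g → Pres Ω N Z (cm g)) {g : (Matrix (Fin n) (Fin n) ℂ)ˣ} (hg : g ∈ Ug (Gal Ω N Z)) :
    cU g ∈ Ug (Gal Ω N Z) := by
  have h1 : Ug (Gal Ω N Z) ≤ (Ug (Gal Ω N Z)).comap cU := by
    refine (Subgroup.closure_le _).2 ?_
    rintro u ⟨A, hA, t, ht⟩
    refine Subgroup.subset_closure ⟨cm A, ⟨cm_nil hA.1, fun s => ?_⟩, (starRingEnd ℂ) t, ?_⟩
    · obtain ⟨v, hv, hv'⟩ := hA.2 ((starRingEnd ℂ) s)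
      refine ⟨cU v, cU_Gal hc hv, ?_⟩
      rw [cU_val, hv', cm_exp hA.1, Complex.conj_conj]
    · rw [cU_val, ht, cm_exp hA.1]
  exact h1 hg

/-- the generators of the Lie algebra -/
def gens (Ω : Matrix (Fin n) (Fin n) ℂ) (N : Matrix (Fin n) (Fin n) ℤ) (Z : Matrix (Fin n) (Fin n) ℚ⟦X⟧) :
    Set (Matrix (Fin n) (Fin n) ℂ) := {A | IsNilpotent A ∧ ∀ t : ℂ, Pres Ω N Z (IsNilpotent.exp (t • A))}

theorem gens_nil {A : Matrix (Fin n) (Fin n) ℂ} (hA : A ∈ gens Ω N Z) : A ∈ Nil (Gal Ω N Z) := by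
  obtain ⟨h1, h2⟩ := hA
  refine ⟨h1, fun t => ?_⟩
  have hnil : ∀ t : ℂ, IsNilpotent (t • A) := fun t => h1.smul t
  have h3 : ∀ t : ℂ, IsNilpotent.exp (t • A) * IsNilpotent.exp ((-t) • A) = 1 := by
    intro t
    rw [← IsNilpotent.exp_add_of_commute (((Commute.refl A).smul_left _).smul_right _) (hnil t) (hnil (-t)), ← add_smul,
      add_neg_cancel, zero_smul, IsNilpotent.exp_zero]
  refine ⟨⟨IsNilpotent.exp (t • A), IsNilpotent.exp ((-t) • A), h3 t, ?_⟩, ⟨h2 t, h2 (-t)⟩, rfl⟩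
  have h4 := h3 (-t)
  rwa [neg_neg] at h4

theorem gens_Ug {A : Matrix (Fin n) (Fin n) ℂ} (hA : A ∈ gens Ω N Z) (t : ℂ) :
    ∃ u ∈ Ug (Gal Ω N Z), (u : Matrix (Fin n) (Fin n) ℂ) = IsNilpotent.exp (t • A) := by
  have h1 := gens_nil hA
  obtain ⟨u, -, hu⟩ := h1.2 t
  exact ⟨u, Subgroup.subset_closure ⟨A, h1, t, hu⟩, hu⟩

theorem cm_iX (i : Fin k) (X : Matrix (Fin n) (Fin n) ℂ) : cm (iX r i X) = iX r i (cm X) := by
  ext (I | ⟨a, l⟩) (J | ⟨b, m⟩)
  · exact map_zero (starRingEnd ℂ)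
  · exact map_zero (starRingEnd ℂ)
  · exact map_zero (starRingEnd ℂ)
  · show (starRingEnd ℂ) (blockDiagonal (Pi.single i X : Fin k → Matrix (Fin n) (Fin n) ℂ) (a, l) (b, m)) =
      blockDiagonal (Pi.single i (cm X) : Fin k → Matrix (Fin n) (Fin n) ℂ) (a, l) (b, m)
    by_cases h : l = m
    · subst h
      rw [blockDiagonal_apply_eq, blockDiagonal_apply_eq]
      by_cases h' : l = i
      · subst h'
        rw [Pi.single_eq_same, Pi.single_eq_same]
        rfl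
      · rw [Pi.single_eq_of_ne h', Pi.single_eq_of_ne h']
        exact map_zero (starRingEnd ℂ)
    · rw [blockDiagonal_apply_ne _ _ _ h, blockDiagonal_apply_ne _ _ _ h]
      exact map_zero (starRingEnd ℂ)

theorem cm_one {E : Type} [Fintype E] [DecidableEq E] : cm (1 : Matrix E E ℂ) = 1 :=
  Matrix.map_one _ (map_zero _) (map_one _)

theorem cm_eE (i : Fin k) (g : (Matrix (Fin n) (Fin n) ℂ)ˣ) :
    cm ((eE r i g : (Matrix (IE r k n) (IE r k n) ℂ)ˣ) : Matrix (IE r k n) (IE r k n) ℂ) =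
      ((eE r i (cU g) : (Matrix (IE r k n) (IE r k n) ℂ)ˣ) : Matrix (IE r k n) (IE r k n) ℂ) := by
  have h1 : ∀ A B : Matrix (IE r k n) (IE r k n) ℂ, cm (A + B) = cm A + cm B := by
    intro A B
    ext i j
    exact map_add (starRingEnd ℂ) _ _
  have h2 : ∀ A B : Matrix (Fin n) (Fin n) ℂ, cm (A - B) = cm A - cm B := by
    intro A B
    ext i j
    exact map_sub (starRingEnd ℂ) _ _
  rw [eE_val, eE_val, h1, cm_iX, h2, cm_one, cm_one, cU_val]

/-- **Hodge tensors at one tuple.** -/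
theorem tuple_main {α ℓ : Fin k → ℂ} {K : Subfield ℂ} {hZ : Matrix (Fin r) (Fin r) ℂ} {QZ : Matrix (Fin r) (Fin r) ℚ}
    (h1 : IsHS hZ QZ) {lam : Fin r → ℤ} {U : Matrix (Fin r) (Fin r) ℂ} (hU : IsUnit U)
    (hUh : hZ * U = U * diagonal fun i => (lam i : ℂ)) {R : Fin k → Matrix (Fin n) (Fin n) ℂ} (hR : ∀ j a b, R j a b ∈ K)
    {e : Fin k → Fin n → ℤ} {h : Fin k → Matrix (Fin n) (Fin n) ℂ} {Q : Fin k → Matrix (Fin n) (Fin n) ℚ}
    (hh : ∀ j, IsHS (h j) (Q j)) (hA : ∀ j, Adapted (h j) (per Ω N Z (α j) (ℓ j) * R j) (e j))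
    (hrl : ∀ (i : Fin k), ∀ g ∈ Ug (Gal Ω N Z), Rl K 4 (tot U Ω N Z α ℓ)
      (((eM (Fin r) i g : (Matrix (IN (Fin r) k n) (IN (Fin r) k n) ℂ)ˣ) : Matrix (IN (Fin r) k n) (IN (Fin r) k n) ℂ) *
        tot U Ω N Z α ℓ))
    (hc : ∀ g, Pres Ω N Z g → Pres Ω N Z (cm g)) (i : Fin k) {L : LieSubalgebra ℂ (Matrix (Fin n) (Fin n) ℂ)}
    (hL : L ≤ LieSubalgebra.lieSpan ℂ _ (gens Ω N Z)) (hs : LieAlgebra.IsSimple ℂ L)
    (hn : ∀ X ∈ L, X * h i - h i * X ∈ L) (hne : ∃ X ∈ L, X * h i - h i * X ≠ 0) {X : Matrix (Fin n) (Fin n) ℂ} (hX : X ∈ L) :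
    iX r i X ∈ Hd (fromBlocks hZ 0 0 (blockDiagonal h)) := by
  set H : Matrix (IE r k n) (IE r k n) ℂ := fromBlocks hZ 0 0 (blockDiagonal h) with hH
  set QE : Matrix (IE r k n) (IE r k n) ℚ := fromBlocks QZ 0 0 (blockDiagonal Q) with hQE
  have hHS : IsHS H QE := h1.sum (IsHS.prod hh)
  set B : Matrix (IE r k n) (IE r k n) ℂ := fromBlocks U 0 0 (blockDiagonal fun j => per Ω N Z (α j) (ℓ j) * R j) with hB
  set eE' : IE r k n → ℤ := Sum.elim lam fun p => e p.2 p.1 with heE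
  have ha1 : A1 H B eE' := (A1_U hU hUh).sum (A1.prod fun j => (hA j).a1)
  have ha2 : A2 H B eE' := (A2_U hUh).sum (A2.prod fun j => (hA j).a2)
  set RE : Matrix (IE r k n) (IE r k n) ℂ := fromBlocks 1 0 0 (blockDiagonal R) with hRE
  have hREK : ∀ a b, RE a b ∈ K := by
    rintro (a | ⟨a, l⟩) (b | ⟨b, m⟩)
    · show (1 : Matrix (Fin r) (Fin r) ℂ) a b ∈ K
      rw [Matrix.one_apply]
      split_ifs
      · exact K.one_mem
      · exact K.zero_mem
    · exact K.zero_mem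
    · exact K.zero_mem
    · show blockDiagonal R (a, l) (b, m) ∈ K
      by_cases h : l = m
      · subst h
        rw [blockDiagonal_apply_eq]
        exact hR _ _ _
      · rw [blockDiagonal_apply_ne _ _ _ h]
        exact K.zero_mem
  have hBR : (tot U Ω N Z α ℓ).submatrix phi phi * RE = B := by
    rw [Pool.Agent.E8helper3.AT.tot, EM_phi, hRE, hB, fromBlocks_multiply, ← blockDiagonal_mul]
    simp only [Matrix.mul_zero, Matrix.zero_mul, add_zero, zero_add, Matrix.mul_one]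
  have hgB : ∀ g : (Matrix (Fin n) (Fin n) ℂ)ˣ, ((((eM (Fin r) i g : (Matrix (IN (Fin r) k n) (IN (Fin r) k n) ℂ)ˣ) :
      Matrix (IN (Fin r) k n) (IN (Fin r) k n) ℂ) * tot U Ω N Z α ℓ).submatrix phi phi) * RE =
      ((eE r i g : (Matrix (IE r k n) (IE r k n) ℂ)ˣ) : Matrix (IE r k n) (IE r k n) ℂ) * B := by
    intro g
    rw [eM_val, Pool.Agent.E8helper3.AT.tot, EM_mul, EM_phi, hRE, hB, eE_val, one_add_iX, fromBlocks_multiply, fromBlocks_multiply, ← blockDiagonal_mul,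
      ← blockDiagonal_mul]
    simp only [Matrix.mul_zero, Matrix.zero_mul, add_zero, zero_add, Matrix.mul_one, Matrix.one_mul, Matrix.mul_assoc]
  -- the transfer
  have key : ∀ g ∈ Ug (Gal Ω N Z), ∀ {a : ℕ}, a ≤ 4 → ∀ t : (Fin a → IE r k n) → ℚ, Kil H t → ∀ J : Fin a → IE r k n,
      0 < ∑ l, eE' (J l) → ev t (fun l => ((eE r i g : (Matrix (IE r k n) (IE r k n) ℂ)ˣ) :
        Matrix (IE r k n) (IE r k n) ℂ) *ᵥ B.col (J l)) = 0 := by
    intro g hg a ha t ht J hJ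
    have h2 : ev t (fun l => ((tot U Ω N Z α ℓ).submatrix phi phi * RE).col (J l)) = 0 := by
      rw [hBR]
      exact van_cols hHS ha2 ht hJ
    have h3 := rl_ev (hrl i g hg) phi ha t hREK J h2
    rw [hgB] at h3
    exact h3
  have htr : ∀ g ∈ Ug (Gal Ω N Z), ∀ {a : ℕ}, a ≤ 4 → ∀ t : (Fin a → IE r k n) → ℚ, Kil H t →
      Kil (((eE r i g : (Matrix (IE r k n) (IE r k n) ℂ)ˣ) : Matrix (IE r k n) (IE r k n) ℂ) * H *
        (((eE r i g)⁻¹ : (Matrix (IE r k n) (IE r k n) ℂ)ˣ) : Matrix (IE r k n) (IE r k n) ℂ)) t := by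
    intro g hg a ha t ht
    have h2 := transfer hHS ha1 (eE r i g).isUnit (key g hg ha t ht) (fun J hJ => by
      rw [cm_eE]
      exact key (cU g) (cU_Ug hc hg) ha t ht J hJ)
    rw [← Matrix.coe_units_inv] at h2
    exact h2
  obtain ⟨t, ht, htn⟩ := exists_t4 hHS
  refine lie_main (H := (Ug (Gal Ω N Z)).map (eE r i)) ?_ (iX r i) (iX_mul i) (gens := gens Ω N Z) ?_ (x := h i) ?_ hL hs hn hne hX
  · rintro _ ⟨g, hg, rfl⟩ Y hY
    exact htn _ (htr g hg (by norm_num) (t2 QE) ((kil_t2 H).2 hHS.skew)) (htr g hg (le_refl 4) t ht) Y hY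
  · intro A hA
    refine ⟨hA.1, fun s => ?_⟩
    obtain ⟨u, hu, hu'⟩ := gens_Ug hA s
    refine ⟨eE r i u, ⟨u, hu, rfl⟩, ?_⟩
    rw [eE_val, hu', iX_exp i hA.1]
  · intro Y
    rw [hH, iX_mul_h, iX_h_mul, map_sub]

end Pool.Agent.E8helper3.HG
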