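import Mathlib

/-!
# Rational multilinear forms and the operators which annihilate them
-/

set_option autoImplicit false
set_option linter.unusedSectionVars false

open Matrix

namespace Pool.Agent.E8helper3.HG

variable {E : Type} [Fintype E] [DecidableEq E]

/-- the complex multilinear form of a rational tensor -/
noncomputable def ev {a : ℕ} (t : (Fin a → E) → ℚ) : MultilinearMap ℂ (fun _ : Fin a => E → ℂ) ℂ :=
  ∑ I : Fin a → E, (t I : ℂ) • (MultilinearMap.mkPiAlgebra ℂ (Fin a) ℂ).compLinearMap fun j => LinearMap.proj (I j)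

theorem ev_apply {a : ℕ} (t : (Fin a → E) → ℚ) (v : Fin a → E → ℂ) : ev t v = ∑ I : Fin a → E, (t I : ℂ) * ∏ l, v l (I l) := by
  simp [ev]

/-- `X` annihilates the form, acting as a derivation -/
def Kil {a : ℕ} (X : Matrix E E ℂ) (t : (Fin a → E) → ℚ) : Prop :=
  ∀ v : Fin a → E → ℂ, ∑ l, ev t (Function.update v l (X *ᵥ v l)) = 0

/-- the derivation -/
noncomputable def dv {a : ℕ} (X : Matrix E E ℂ) (t : (Fin a → E) → ℚ) (v : Fin a → E → ℂ) : ℂ :=
  ∑ l, ev t (Function.update v l (X *ᵥ v l))

theorem dv_add {a : ℕ} (X Y : Matrix E E ℂ) (t : (Fin a → E) → ℚ) (v : Fin a → E → ℂ) :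
    dv (X + Y) t v = dv X t v + dv Y t v := by
  unfold dv
  rw [← Finset.sum_add_distrib]
  refine Finset.sum_congr rfl fun l _ => ?_
  rw [add_mulVec, MultilinearMap.map_update_add]

theorem dv_smul {a : ℕ} (c : ℂ) (X : Matrix E E ℂ) (t : (Fin a → E) → ℚ) (v : Fin a → E → ℂ) :
    dv (c • X) t v = c * dv X t v := by
  unfold dv
  rw [Finset.mul_sum]
  refine Finset.sum_congr rfl fun l _ => ?_
  rw [smul_mulVec, MultilinearMap.map_update_smul, smul_eq_mul]

/-- a double derivation -/
theorem dv_dv {a : ℕ} (X Y : Matrix E E ℂ) (t : (Fin a → E) → ℚ) (v : Fin a → E → ℂ) :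
    ∑ l, dv X t (Function.update v l (Y *ᵥ v l)) = dv (X * Y) t v +
      ∑ l, ∑ m, if m = l then 0 else
        ev t (Function.update (Function.update v l (Y *ᵥ v l)) m (X *ᵥ v m)) := by
  unfold dv
  rw [← Finset.sum_add_distrib]
  refine Finset.sum_congr rfl fun l _ => ?_
  have h1 : ∀ m : Fin a, ev t (Function.update (Function.update v l (Y *ᵥ v l)) m
      (X *ᵥ Function.update v l (Y *ᵥ v l) m)) = (if m = l then ev t (Function.update v l ((X * Y) *ᵥ v l)) else 0) +
        if m = l then 0 else ev t (Function.update (Function.update v l (Y *ᵥ v l)) m (X *ᵥ v m)) := by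
    intro m
    by_cases h : m = l
    · subst h
      rw [if_pos rfl, if_pos rfl, add_zero, Function.update_self, Function.update_idem, mulVec_mulVec]
    · rw [if_neg h, if_neg h, zero_add, Function.update_of_ne h]
  rw [Finset.sum_congr rfl fun m _ => h1 m, Finset.sum_add_distrib, Finset.sum_ite_eq' Finset.univ l,
    if_pos (Finset.mem_univ l)]

theorem dv_comm {a : ℕ} (X Y : Matrix E E ℂ) (t : (Fin a → E) → ℚ) (v : Fin a → E → ℂ) :
    dv (X * Y - Y * X) t v = (∑ l, dv X t (Function.update v l (Y *ᵥ v l))) -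
      ∑ l, dv Y t (Function.update v l (X *ᵥ v l)) := by
  rw [dv_dv, dv_dv]
  have h1 : (∑ l, ∑ m, if m = l then 0 else
        ev t (Function.update (Function.update v l (Y *ᵥ v l)) m (X *ᵥ v m))) =
      ∑ l, ∑ m, if m = l then 0 else
        ev t (Function.update (Function.update v l (X *ᵥ v l)) m (Y *ᵥ v m)) := by
    rw [Finset.sum_comm]
    refine Finset.sum_congr rfl fun m _ => Finset.sum_congr rfl fun l _ => ?_
    by_cases h : m = l
    · rw [if_pos h, if_pos h.symm]
    · rw [if_neg h, if_neg (Ne.symm h), Function.update_comm h]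
  have h2 : dv (X * Y - Y * X) t v = dv (X * Y) t v - dv (Y * X) t v := by
    rw [sub_eq_add_neg, dv_add, ← neg_one_smul ℂ (Y * X), dv_smul]
    ring
  rw [h1, h2]
  ring

/-- the conjugate of a vector -/
def cj (v : E → ℂ) : E → ℂ := fun i => (starRingEnd ℂ) (v i)

/-- the conjugate of a matrix -/
def cm (X : Matrix E E ℂ) : Matrix E E ℂ := X.map (starRingEnd ℂ)

theorem cj_cj (v : E → ℂ) : cj (cj v) = v := by
  funext i
  exact Complex.conj_conj _

theorem cm_cm (X : Matrix E E ℂ) : cm (cm X) = X := by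
  ext i j
  exact Complex.conj_conj _

theorem cm_mulVec (X : Matrix E E ℂ) (v : E → ℂ) : cm X *ᵥ cj v = cj (X *ᵥ v) := by
  funext i
  show ∑ j, (starRingEnd ℂ) (X i j) * (starRingEnd ℂ) (v j) = (starRingEnd ℂ) (∑ j, X i j * v j)
  rw [map_sum]
  exact Finset.sum_congr rfl fun j _ => (map_mul _ _ _).symm

theorem cm_mul (X Y : Matrix E E ℂ) : cm (X * Y) = cm X * cm Y := Matrix.map_mul (f := starRingEnd ℂ)

theorem ev_cj {a : ℕ} (t : (Fin a → E) → ℚ) (v : Fin a → E → ℂ) :
    ev t (fun l => cj (v l)) = (starRingEnd ℂ) (ev t v) := by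
  rw [ev_apply, ev_apply, map_sum]
  refine Finset.sum_congr rfl fun I _ => ?_
  rw [map_mul, map_prod]
  congr 1
  exact (map_ratCast (starRingEnd ℂ) _).symm

theorem upd_cj {a : ℕ} (v : Fin a → E → ℂ) (l : Fin a) (w : E → ℂ) :
    (fun m => cj (Function.update v l w m)) = Function.update (fun m => cj (v m)) l (cj w) := by
  funext m
  by_cases h : m = l
  · subst h
    rw [Function.update_self, Function.update_self]
  · rw [Function.update_of_ne h, Function.update_of_ne h]

theorem dv_cm {a : ℕ} (X : Matrix E E ℂ) (t : (Fin a → E) → ℚ) (v : Fin a → E → ℂ) :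
    dv (cm X) t (fun l => cj (v l)) = (starRingEnd ℂ) (dv X t v) := by
  unfold dv
  rw [map_sum]
  refine Finset.sum_congr rfl fun l _ => ?_
  rw [← ev_cj, upd_cj, cm_mulVec]

/-- the operators which annihilate all rational tensors annihilated by `h` -/
def Hd (h : Matrix E E ℂ) : Submodule ℂ (Matrix E E ℂ) where
  carrier := {X | ∀ (a : ℕ) (t : (Fin a → E) → ℚ), Kil h t → Kil X t}
  zero_mem' := by
    intro a t _ v
    have h1 := dv_smul 0 (0 : Matrix E E ℂ) t v
    rw [zero_smul, zero_mul] at h1
    exact h1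
  add_mem' := by
    intro X Y hX hY a t ht v
    have h1 := dv_add X Y t v
    have h2 : dv X t v = 0 := hX a t ht v
    have h3 : dv Y t v = 0 := hY a t ht v
    rw [h2, h3, add_zero] at h1
    exact h1
  smul_mem' := by
    intro c X hX a t ht v
    have h1 := dv_smul c X t v
    have h2 : dv X t v = 0 := hX a t ht v
    rw [h2, mul_zero] at h1
    exact h1

theorem self_mem (h : Matrix E E ℂ) : h ∈ Hd h := fun _ _ ht => ht

theorem Hd_lie {h X Y : Matrix E E ℂ} (hX : X ∈ Hd h) (hY : Y ∈ Hd h) : X * Y - Y * X ∈ Hd h := by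
  intro a t ht v
  have h1 := dv_comm X Y t v
  have h2 : ∀ v, dv X t v = 0 := fun v => hX a t ht v
  have h3 : ∀ v, dv Y t v = 0 := fun v => hY a t ht v
  rw [Finset.sum_eq_zero fun l _ => h2 _, Finset.sum_eq_zero fun l _ => h3 _, sub_zero] at h1
  exact h1

theorem Hd_cm {h X : Matrix E E ℂ} (hX : X ∈ Hd h) : cm X ∈ Hd h := by
  intro a t ht v
  have h1 := dv_cm X t fun l => cj (v l)
  have h2 : dv X t (fun l => cj (v l)) = 0 := hX a t ht _
  rw [h2, map_zero] at h1
  have h3 : (fun l => cj (cj (v l))) = v := funext fun l => cj_cj (v l)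
  rw [h3] at h1
  exact h1

/-- rational coordinates of the derivation -/
theorem dv_single {a : ℕ} (X : Matrix E E ℂ) (t : (Fin a → E) → ℚ) (J : Fin a → E) :
    dv X t (fun l => Pi.single (J l) 1) = ∑ l, ∑ b, (t (Function.update J l b) : ℂ) * X b (J l) := by
  unfold dv
  refine Finset.sum_congr rfl fun l _ => ?_
  have h1 : X *ᵥ (Pi.single (J l) 1 : E → ℂ) = ∑ b, X b (J l) • (Pi.single b 1 : E → ℂ) := by
    funext c
    rw [Finset.sum_apply]
    simp [Pi.single_apply]
  rw [h1, MultilinearMap.map_update_sum]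
  refine Finset.sum_congr rfl fun b _ => ?_
  rw [MultilinearMap.map_update_smul, smul_eq_mul, mul_comm]
  congr 1
  have h2 : Function.update (fun l => (Pi.single (J l) 1 : E → ℂ)) l (Pi.single b 1) =
      fun m => Pi.single (Function.update J l b m) 1 := by
    funext m
    by_cases h : m = l
    · subst h
      rw [Function.update_self, Function.update_self]
    · rw [Function.update_of_ne h, Function.update_of_ne h]
  rw [h2, ev_apply, Finset.sum_eq_single (Function.update J l b)]
  · have h3 : ∀ m ∈ (Finset.univ : Finset (Fin a)), (Pi.single (Function.update J l b m) (1 : ℂ) : E → ℂ)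
        (Function.update J l b m) = 1 := fun m _ => by rw [Pi.single_eq_same]
    rw [Finset.prod_eq_one h3, mul_one]
  · intro I _ hI
    obtain ⟨m, hm⟩ := Function.ne_iff.1 hI
    rw [Finset.prod_eq_zero (Finset.mem_univ m) (Pi.single_eq_of_ne hm _), mul_zero]
  · intro h
    exact absurd (Finset.mem_univ _) h

theorem kil_iff {a : ℕ} (X : Matrix E E ℂ) (t : (Fin a → E) → ℚ) :
    Kil X t ↔ ∀ J : Fin a → E, ∑ l, ∑ b, (t (Function.update J l b) : ℂ) * X b (J l) = 0 := by
  constructor
  · intro h J
    rw [← dv_single]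
    exact h _
  · intro h
    -- the derivation is a multilinear map
    let D : MultilinearMap ℂ (fun _ : Fin a => E → ℂ) ℂ := ∑ l, (ev t).compLinearMap
      (fun m => if m = l then Matrix.mulVecLin X else LinearMap.id)
    have hD : ∀ v, D v = dv X t v := by
      intro v
      show (∑ l, (ev t).compLinearMap (fun m => if m = l then Matrix.mulVecLin X else LinearMap.id)) v = _
      rw [_root_.sum_apply]
      unfold dv
      refine Finset.sum_congr rfl fun l _ => ?_
      rw [MultilinearMap.compLinearMap_apply]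
      congr 1
      funext m
      by_cases hm : m = l
      · subst hm
        rw [if_pos rfl, Function.update_self]
        rfl
      · rw [if_neg hm, Function.update_of_ne hm]
        rfl
    have h0 : D = 0 := by
      refine Module.Basis.ext_multilinear (fun _ => Pi.basisFun ℂ E) fun J => ?_
      rw [hD, _root_.zero_apply]
      have h1 : (fun i => (Pi.basisFun ℂ E) (J i)) = fun l => (Pi.single (J l) 1 : E → ℂ) := by
        funext l
        exact Pi.basisFun_apply ℂ E (J l)
      rw [h1, dv_single]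
      exact h J
    intro v
    have h1 := hD v
    rw [h0, _root_.zero_apply] at h1
    exact h1.symm

end Pool.Agent.E8helper3.HG
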