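import Pool.Agent.E8helper3.HG.Form

/-!
# Polarised Hodge structures: the trace form is nondegenerate on the Lie algebra
-/

set_option autoImplicit false
set_option linter.unusedSectionVars false

open Matrix

namespace Pool.Agent.E8helper3.HG

variable {E : Type} [Fintype E] [DecidableEq E]

/-- a rational matrix as a complex matrix -/
noncomputable def rc (M : Matrix E E ℚ) : Matrix E E ℂ := M.map (Rat.castHom ℂ)

theorem rc_mul (M N : Matrix E E ℚ) : rc (M * N) = rc M * rc N := Matrix.map_mul (f := Rat.castHom ℂ)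

theorem cm_rc (M : Matrix E E ℚ) : cm (rc M) = rc M := by
  ext i j
  exact map_ratCast (starRingEnd ℂ) (M i j)

/-- A polarised Hodge structure: `h` is the multiplication by `p - q` on `H^{p,q}`. -/
structure IsHS (h : Matrix E E ℂ) (Q : Matrix E E ℚ) : Prop where
  diag : ⨆ s : ℤ, Module.End.eigenspace (Matrix.mulVecLin h) (s : ℂ) = ⊤
  conj : cm h = -h
  skew : hᵀ * rc Q + rc Q * h = 0
  pos : ∀ (s : ℤ) (v : E → ℂ), h *ᵥ v = (s : ℂ) • v → v ≠ 0 →
    0 < (Complex.I ^ s * (v ⬝ᵥ (rc Q *ᵥ cj v))).re ∧ (Complex.I ^ s * (v ⬝ᵥ (rc Q *ᵥ cj v))).im = 0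

/-- a basis of eigenvectors -/
theorem exists_eigen {h : Matrix E E ℂ} (hd : ⨆ s : ℤ, Module.End.eigenspace (Matrix.mulVecLin h) (s : ℂ) = ⊤) :
    ∃ (lam : E → ℤ) (U : Matrix E E ℂ), IsUnit U ∧ h * U = U * diagonal fun i => (lam i : ℂ) := by
  classical
  set V : ℤ → Submodule ℂ (E → ℂ) := fun s => Module.End.eigenspace (Matrix.mulVecLin h) (s : ℂ) with hV
  have hind : iSupIndep V := (Module.End.eigenspaces_iSupIndep (Matrix.mulVecLin h)).comp Int.cast_injective
  have hint : DirectSum.IsInternal V := (DirectSum.isInternal_submodule_iff_iSupIndep_and_iSup_eq_top V).2 ⟨hind, hd⟩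
  let b := hint.collectedBasis fun s => Module.finBasis ℂ (V s)
  let e := b.indexEquiv (Pi.basisFun ℂ E)
  let b' := b.reindex e
  have hb' : ∀ i, b' i = b (e.symm i) := fun i => Module.Basis.reindex_apply _ _ _
  refine ⟨fun i => (e.symm i).1, Matrix.of fun a i => b' i a, ?_, ?_⟩
  · have h1 : (Matrix.of fun a i => b' i a) = (Pi.basisFun ℂ E).toMatrix b' := by
      ext a i
      rw [Module.Basis.toMatrix_apply, Pi.basisFun_repr]
      rfl
    rw [h1]
    have h2 := (Pi.basisFun ℂ E).toMatrix_mul_toMatrix_flip b'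
    exact IsUnit.of_mul_eq_one _ h2
  · ext a i
    rw [mul_diagonal]
    have h1 : b (e.symm i) ∈ V (e.symm i).1 := hint.collectedBasis_mem _ _
    have h1' := Module.End.mem_eigenspace_iff.1 h1
    have h2 := congrFun h1' a
    rw [← hb'] at h2
    show ∑ j, h a j * b' i j = b' i a * _
    have h3 : (h.mulVecLin (b' i)) a = ∑ j, h a j * b' i j := rfl
    rw [← h3, h2, Pi.smul_apply, smul_eq_mul, mul_comm]

theorem herm_of_real {M : Matrix E E ℂ} (h : ∀ v : E → ℂ, (star v ⬝ᵥ M *ᵥ v).im = 0) : M.IsHermitian := by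
  have key : ∀ (u v : E → ℂ), (star u ⬝ᵥ M *ᵥ v) = (starRingEnd ℂ) (star v ⬝ᵥ M *ᵥ u) := by
    intro u v
    have h1 : ∀ u v : E → ℂ, star (u + v) ⬝ᵥ M *ᵥ (u + v) = star u ⬝ᵥ M *ᵥ u + star v ⬝ᵥ M *ᵥ v +
        (star u ⬝ᵥ M *ᵥ v + star v ⬝ᵥ M *ᵥ u) := by
      intro u v
      rw [star_add, add_dotProduct, mulVec_add, dotProduct_add, dotProduct_add]
      ring
    have h2 := congrArg Complex.im (h1 u v)
    rw [Complex.add_im, Complex.add_im, h, h, h, Complex.add_im] at h2
    have h3 := congrArg Complex.im (h1 u (Complex.I • v))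
    rw [Complex.add_im, Complex.add_im, h, h, h, Complex.add_im, star_smul, mulVec_smul, dotProduct_smul, smul_dotProduct,
      smul_eq_mul, smul_eq_mul] at h3
    refine Complex.ext ?_ ?_
    · rw [Complex.conj_re]
      simp at h3
      linarith
    · rw [Complex.conj_im]
      linarith
  ext i j
  rw [conjTranspose_apply]
  have h1 := key (Pi.single i 1) (Pi.single j 1)
  have h2 : ∀ a b : E, star (Pi.single a 1 : E → ℂ) ⬝ᵥ M *ᵥ Pi.single b 1 = M a b := by
    intro a b
    rw [mulVec_single_one, ← Pi.single_star, star_one, single_one_dotProduct]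
    rfl
  rw [h2, h2] at h1
  exact h1.symm

/-- the multilinear form on a basis of eigenvectors -/
theorem ev_eigen {a : ℕ} {h : Matrix E E ℂ} {t : (Fin a → E) → ℚ} (ht : Kil h t) {s : Fin a → ℤ} {v : Fin a → E → ℂ}
    (hv : ∀ l, h *ᵥ v l = (s l : ℂ) • v l) (hs : ∑ l, s l ≠ 0) : ev t v = 0 := by
  have h1 := ht v
  have h2 : ∀ l, ev t (Function.update v l (h *ᵥ v l)) = (s l : ℂ) * ev t v := by
    intro l
    rw [hv l, MultilinearMap.map_update_smul, Function.update_eq_self, smul_eq_mul]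
  rw [Finset.sum_congr rfl fun l _ => h2 l, ← Finset.sum_mul, mul_eq_zero] at h1
  refine h1.resolve_left ?_
  exact_mod_cast hs

section weil

variable {h : Matrix E E ℂ} {lam : E → ℤ} {U : Matrix E E ℂ}

/-- the operator `z ^ (p - q)` -/
noncomputable def Cz (lam : E → ℤ) (U : Matrix E E ℂ) (z : ℂ) : Matrix E E ℂ := U * diagonal (fun i => z ^ lam i) * U⁻¹

theorem Cz_col (hU : IsUnit U) (z : ℂ) (c : E → ℂ) : Cz lam U z *ᵥ (U *ᵥ c) = U *ᵥ fun i => z ^ lam i * c i := by
  have h1 : U⁻¹ * U = 1 := Matrix.nonsing_inv_mul _ ((Matrix.isUnit_iff_isUnit_det _).1 hU)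
  unfold Cz
  rw [mulVec_mulVec, Matrix.mul_assoc, h1, Matrix.mul_one, ← mulVec_mulVec]
  congr 1
  funext i
  exact mulVec_diagonal _ _ _

theorem Cz_mul (hU : IsUnit U) (z w : ℂ) : Cz lam U z * Cz lam U w = Cz lam U (z * w) := by
  have h1 : U⁻¹ * U = 1 := Matrix.nonsing_inv_mul _ ((Matrix.isUnit_iff_isUnit_det _).1 hU)
  unfold Cz
  calc U * diagonal (fun i => z ^ lam i) * U⁻¹ * (U * diagonal (fun i => w ^ lam i) * U⁻¹) =
      U * diagonal (fun i => z ^ lam i) * (U⁻¹ * U) * diagonal (fun i => w ^ lam i) * U⁻¹ := by simp only [Matrix.mul_assoc]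
    _ = U * (diagonal (fun i => z ^ lam i) * diagonal (fun i => w ^ lam i)) * U⁻¹ := by
      rw [h1, Matrix.mul_one, Matrix.mul_assoc U]
    _ = _ := by
      rw [diagonal_mul_diagonal]
      congr 3
      funext i
      exact (mul_zpow z w (lam i)).symm

theorem Cz_one (hU : IsUnit U) : Cz lam U 1 = 1 := by
  unfold Cz
  have h1 : (fun i => (1 : ℂ) ^ lam i) = fun _ => 1 := by
    funext i
    exact one_zpow _
  rw [h1, diagonal_one, Matrix.mul_one, Matrix.mul_nonsing_inv _ ((Matrix.isUnit_iff_isUnit_det _).1 hU)]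

/-- the vectors are combinations of eigenvectors -/
theorem ev_ext {a : ℕ} (hU : IsUnit U) {F G : MultilinearMap ℂ (fun _ : Fin a => E → ℂ) ℂ}
    (hFG : ∀ J : Fin a → E, F (fun l => U.col (J l)) = G fun l => U.col (J l)) : F = G := by
  have h1 : ∀ (F : MultilinearMap ℂ (fun _ : Fin a => E → ℂ) ℂ), F = (F.compLinearMap fun _ => U.mulVecLin).compLinearMap
      fun _ => (U⁻¹).mulVecLin := by
    intro F
    refine MultilinearMap.ext fun v => ?_
    rw [MultilinearMap.compLinearMap_apply, MultilinearMap.compLinearMap_apply]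
    congr 1
    funext l
    show v l = U *ᵥ (U⁻¹ *ᵥ v l)
    rw [mulVec_mulVec, Matrix.mul_nonsing_inv _ ((Matrix.isUnit_iff_isUnit_det _).1 hU), one_mulVec]
  have h2 : F.compLinearMap (fun _ => U.mulVecLin) = G.compLinearMap fun _ => U.mulVecLin := by
    refine Module.Basis.ext_multilinear (fun _ => Pi.basisFun ℂ E) fun J => ?_
    rw [MultilinearMap.compLinearMap_apply, MultilinearMap.compLinearMap_apply]
    have h3 : (fun i => U.mulVecLin ((Pi.basisFun ℂ E) (J i))) = fun l => U.col (J l) := by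
      funext l
      rw [Pi.basisFun_apply]
      exact mulVec_single_one _ _
    rw [h3]
    exact hFG J
  rw [h1 F, h1 G, h2]

theorem eig_col (hUh : h * U = U * diagonal fun i => (lam i : ℂ)) (i : E) : h *ᵥ U.col i = (lam i : ℂ) • U.col i := by
  funext a
  have h1 := congrFun (congrFun hUh a) i
  rw [mul_diagonal] at h1
  show (h * U) a i = _
  rw [h1, Pi.smul_apply, smul_eq_mul, mul_comm]
  rfl

theorem Cz_eig (hU : IsUnit U) (z : ℂ) (i : E) : Cz lam U z *ᵥ U.col i = z ^ lam i • U.col i := by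
  have h1 := Cz_col (lam := lam) hU z (Pi.single i 1)
  rw [mulVec_single_one] at h1
  rw [h1]
  have h2 : (fun j => z ^ lam j * (Pi.single i 1 : E → ℂ) j) = z ^ lam i • (Pi.single i 1 : E → ℂ) := by
    funext j
    rw [Pi.smul_apply, smul_eq_mul]
    by_cases h : j = i
    · subst h
      rfl
    · rw [Pi.single_eq_of_ne h, mul_zero, mul_zero]
  rw [h2, mulVec_smul, mulVec_single_one]

theorem Cz_inv (hU : IsUnit U) {z : ℂ} (hz : z ≠ 0) {a : ℕ} {t : (Fin a → E) → ℚ} (ht : Kil h t)
    (hUh : h * U = U * diagonal fun i => (lam i : ℂ)) (v : Fin a → E → ℂ) : ev t (fun l => Cz lam U z *ᵥ v l) = ev t v := by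
  have h1 : (ev t).compLinearMap (fun _ => (Cz lam U z).mulVecLin) = ev t := by
    refine ev_ext hU fun J => ?_
    rw [MultilinearMap.compLinearMap_apply]
    have h2 : (fun l => (Cz lam U z).mulVecLin (U.col (J l))) = fun l => z ^ lam (J l) • U.col (J l) := by
      funext l
      exact Cz_eig hU z (J l)
    rw [h2, MultilinearMap.map_smul_univ, smul_eq_mul]
    by_cases hs : ∑ l, lam (J l) = 0
    · have h3 : ∏ l, z ^ lam (J l) = 1 := by
        have h4 : ∀ s : Finset (Fin a), ∏ l ∈ s, z ^ lam (J l) = z ^ (∑ l ∈ s, lam (J l)) := by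
          intro s
          induction s using Finset.induction_on with
          | empty => simp
          | insert l s hl ih => rw [Finset.prod_insert hl, Finset.sum_insert hl, zpow_add₀ hz, ih]
        rw [h4, hs, zpow_zero]
      rw [h3, one_mul]
    · rw [ev_eigen ht (fun l => eig_col hUh (J l)) hs, mul_zero]
  exact congrArg (fun F => F v) h1

theorem Hd_conj (hU : IsUnit U) {z : ℂ} (hz : z ≠ 0) (hUh : h * U = U * diagonal fun i => (lam i : ℂ)) {X : Matrix E E ℂ}
    (hX : X ∈ Hd h) : Cz lam U z⁻¹ * X * Cz lam U z ∈ Hd h := by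
  intro a t ht v
  have h1 := hX a t ht fun l => Cz lam U z *ᵥ v l
  refine Eq.trans ?_ h1
  refine Finset.sum_congr rfl fun l _ => ?_
  rw [← Cz_inv hU hz ht hUh]
  congr 1
  funext m
  by_cases h : m = l
  · subst h
    rw [Function.update_self, Function.update_self, mulVec_mulVec, mulVec_mulVec]
    have h2 : Cz lam U z * (Cz lam U z⁻¹ * X * Cz lam U z) = X * Cz lam U z := by
      rw [← Matrix.mul_assoc, ← Matrix.mul_assoc, Cz_mul hU, mul_inv_cancel₀ hz, Cz_one hU, Matrix.one_mul]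
    rw [h2]
  · rw [Function.update_of_ne h, Function.update_of_ne h]

end weil

end Pool.Agent.E8helper3.HG
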