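import Pool.Agent.E8helper3.HG.Tr

/-!
# From conjugates of the Hodge structure to the Lie algebra
-/

set_option autoImplicit false
set_option linter.unusedSectionVars false

open Matrix

namespace Pool.Agent.E8helper3.HG

attribute [local instance 100] LieRing.ofAssociativeRing

/-- the coefficients of a polynomial curve in a subspace -/
theorem coeff_mem {V : Type} [AddCommGroup V] [Module ℂ V] (S : Submodule ℂ V) {ι : Type} (F : Finset ι) (d : ι → ℕ) (c : ι → V)
    (h : ∀ t : ℂ, ∑ s ∈ F, t ^ d s • c s ∈ S) (l : ℕ) : ∑ s ∈ F with d s = l, c s ∈ S := by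
  rw [← Submodule.Quotient.mk_eq_zero, ← Module.forall_dual_apply_eq_zero_iff ℂ]
  intro f
  set g : V →ₗ[ℂ] ℂ := f ∘ₗ S.mkQ with hg
  have hgS : ∀ v ∈ S, g v = 0 := by
    intro v hv
    show f (S.mkQ v) = 0
    rw [(Submodule.Quotient.mk_eq_zero S).2 hv |> fun h => (show S.mkQ v = 0 from h), map_zero]
  show g (∑ s ∈ F with d s = l, c s) = 0
  set p : Polynomial ℂ := ∑ s ∈ F, Polynomial.C (g (c s)) * Polynomial.X ^ d s with hp
  have hp0 : p = 0 := by
    refine Polynomial.funext fun t => ?_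
    rw [hp, Polynomial.eval_finsetSum, Polynomial.eval_zero, ← hgS _ (h t), map_sum]
    refine Finset.sum_congr rfl fun s _ => ?_
    rw [map_smul, Polynomial.eval_mul, Polynomial.eval_C, Polynomial.eval_pow, Polynomial.eval_X, smul_eq_mul, mul_comm]
  have h1 := congrArg (fun q => Polynomial.coeff q l) hp0
  have h2 : p.coeff l = ∑ s ∈ F, if d s = l then g (c s) else 0 := by
    rw [hp, Polynomial.finsetSum_coeff]
    refine Finset.sum_congr rfl fun s _ => ?_
    rw [Polynomial.coeff_C_mul, Polynomial.coeff_X_pow]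
    by_cases hs : d s = l
    · rw [if_pos hs, if_pos hs.symm, mul_one]
    · rw [if_neg hs, if_neg (Ne.symm hs), mul_zero]
  rw [map_sum, Finset.sum_filter]
  rw [← h2]
  exact h1

variable {E : Type} [Fintype E] [DecidableEq E]

/-- the derivative of the conjugation by a unipotent one-parameter group -/
theorem exp_mem {S : Submodule ℂ (Matrix E E ℂ)} {M y : Matrix E E ℂ} (hM : IsNilpotent M)
    (h : ∀ t : ℂ, IsNilpotent.exp (t • M) * y * IsNilpotent.exp ((-t) • M) ∈ S) : M * y - y * M ∈ S := by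
  obtain ⟨m, hm⟩ := hM
  have hm2 : M ^ (m + 2) = 0 := by rw [pow_add, hm, zero_mul]
  have hexp : ∀ t : ℂ, IsNilpotent.exp (t • M) = ∑ i ∈ Finset.range (m + 2), (t ^ i * ((i.factorial : ℂ))⁻¹) • M ^ i := by
    intro t
    have h1 : (t • M) ^ (m + 2) = 0 := by rw [smul_pow, hm2, smul_zero]
    rw [IsNilpotent.exp_eq_sum h1]
    refine Finset.sum_congr rfl fun i _ => ?_
    rw [smul_pow, ← algebraMap_smul ℂ ((i.factorial : ℚ)⁻¹), smul_smul]
    congr 1
    rw [map_inv₀, map_natCast, mul_comm]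
  have h2 : ∀ t : ℂ, ∑ s ∈ Finset.range (m + 2) ×ˢ Finset.range (m + 2), t ^ (s.1 + s.2) •
      ((((s.1.factorial : ℂ))⁻¹ * ((-1) ^ s.2 * ((s.2.factorial : ℂ))⁻¹)) • (M ^ s.1 * y * M ^ s.2)) ∈ S := by
    intro t
    have h3 := h t
    rw [hexp, hexp] at h3
    refine (congrArg (fun z => z ∈ S) ?_).mp h3
    rw [Finset.sum_mul, Finset.sum_mul, Finset.sum_product]
    refine Finset.sum_congr rfl fun i _ => ?_
    rw [Finset.mul_sum]
    refine Finset.sum_congr rfl fun j _ => ?_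
    rw [smul_mul_assoc, smul_mul_assoc, mul_smul_comm, smul_smul, smul_smul]
    congr 1
    rw [neg_pow, pow_add]
    ring
  have h3 := coeff_mem S _ (fun s : ℕ × ℕ => s.1 + s.2) _ h2 1
  have h4 : (Finset.range (m + 2) ×ˢ Finset.range (m + 2)).filter (fun s : ℕ × ℕ => s.1 + s.2 = 1) = {(1, 0), (0, 1)} := by
    ext ⟨i, j⟩
    simp only [Finset.mem_filter, Finset.mem_product, Finset.mem_range, Finset.mem_insert, Finset.mem_singleton, Prod.mk.injEq]
    omega
  rw [h4, Finset.sum_insert (by simp), Finset.sum_singleton] at h3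
  refine (congrArg (fun z => z ∈ S) ?_).mp h3
  simp
  rw [← sub_eq_add_neg]

variable {n : ℕ}

/-- the matrices which normalise the Lie algebra together with their conjugates -/
def Nh (h : Matrix E E ℂ) (H : Subgroup (Matrix E E ℂ)ˣ) : Submodule ℂ (Matrix E E ℂ) where
  carrier := {y | ∀ u ∈ H, ∀ X ∈ Hd h, (u * y * (u⁻¹ : (Matrix E E ℂ)ˣ)) * X - X * (u * y * (u⁻¹ : (Matrix E E ℂ)ˣ)) ∈ Hd h}
  zero_mem' := by
    intro u _ X _
    simp only [Matrix.mul_zero, Matrix.zero_mul, sub_zero]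
    exact (Hd h).zero_mem
  add_mem' := by
    intro y y' hy hy' u hu X hX
    have h1 := (Hd h).add_mem (hy u hu X hX) (hy' u hu X hX)
    refine (congrArg (fun z => z ∈ Hd h) ?_).mp h1
    simp only [Matrix.mul_add, Matrix.add_mul]
    abel
  smul_mem' := by
    intro c y hy u hu X hX
    have h1 := (Hd h).smul_mem c (hy u hu X hX)
    refine (congrArg (fun z => z ∈ Hd h) ?_).mp h1
    simp only [Matrix.mul_smul, Matrix.smul_mul, smul_sub]

theorem Nh_conj {h : Matrix E E ℂ} {H : Subgroup (Matrix E E ℂ)ˣ} {y : Matrix E E ℂ} (hy : y ∈ Nh h H) {v : (Matrix E E ℂ)ˣ}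
    (hv : v ∈ H) : v * y * (v⁻¹ : (Matrix E E ℂ)ˣ) ∈ Nh h H := by
  intro u hu X hX
  have h1 := hy (u * v) (H.mul_mem hu hv) X hX
  have h2 : (((u * v : (Matrix E E ℂ)ˣ)) : Matrix E E ℂ) * y * (((u * v)⁻¹ : (Matrix E E ℂ)ˣ) : Matrix E E ℂ) =
      u * (v * y * (v⁻¹ : (Matrix E E ℂ)ˣ)) * (u⁻¹ : (Matrix E E ℂ)ˣ) := by
    rw [_root_.mul_inv_rev, Units.val_mul, Units.val_mul]
    simp only [Matrix.mul_assoc]
  rw [h2] at h1
  exact h1

/-- the operators in the group act by derivations -/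
theorem Nh_lie {h : Matrix E E ℂ} {H : Subgroup (Matrix E E ℂ)ˣ} {M : Matrix E E ℂ} (hM : IsNilpotent M)
    (hMH : ∀ t : ℂ, ∃ u ∈ H, (u : Matrix E E ℂ) = IsNilpotent.exp (t • M)) {y : Matrix E E ℂ} (hy : y ∈ Nh h H) :
    M * y - y * M ∈ Nh h H := by
  refine exp_mem hM fun t => ?_
  obtain ⟨u, hu, hu'⟩ := hMH t
  have h1 := Nh_conj hy hu
  have h2 : ((u⁻¹ : (Matrix E E ℂ)ˣ) : Matrix E E ℂ) = IsNilpotent.exp ((-t) • M) := by
    have h3 : (u : Matrix E E ℂ) * IsNilpotent.exp ((-t) • M) = 1 := by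
      rw [hu', ← IsNilpotent.exp_add_of_commute (((Commute.refl M).smul_left _).smul_right _) (hM.smul t) (hM.smul (-t)),
        ← add_smul, add_neg_cancel, zero_smul, IsNilpotent.exp_zero]
    exact Units.inv_eq_of_mul_eq_one_right h3
  rw [hu', h2] at h1
  exact h1

/-- **The Lie algebra argument.** -/
theorem lie_main {h : Matrix E E ℂ} {H : Subgroup (Matrix E E ℂ)ˣ}
    (hH : ∀ u ∈ H, ∀ X ∈ Hd h, (u * h * (u⁻¹ : (Matrix E E ℂ)ˣ)) * X - X * (u * h * (u⁻¹ : (Matrix E E ℂ)ˣ)) ∈ Hd h)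
    {gens : Set (Matrix (Fin n) (Fin n) ℂ)} (i : Matrix (Fin n) (Fin n) ℂ →ₗ[ℂ] Matrix E E ℂ)
    (hi : ∀ X Y, i (X * Y) = i X * i Y)
    (hgens : ∀ A ∈ gens, IsNilpotent A ∧ ∀ t : ℂ, ∃ u ∈ H, (u : Matrix E E ℂ) = IsNilpotent.exp (t • i A))
    {x : Matrix (Fin n) (Fin n) ℂ} (hx : ∀ X, i (X * x - x * X) = i X * h - h * i X)
    {L : LieSubalgebra ℂ (Matrix (Fin n) (Fin n) ℂ)} (hL : L ≤ LieSubalgebra.lieSpan ℂ _ gens) (hs : LieAlgebra.IsSimple ℂ L)
    (hn : ∀ X ∈ L, X * x - x * X ∈ L) (hne : ∃ X ∈ L, X * x - x * X ≠ 0) {X : Matrix (Fin n) (Fin n) ℂ} (hX : X ∈ L) :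
    i X ∈ Hd h := by
  -- the normaliser is stable
  let K : LieSubalgebra ℂ (Matrix (Fin n) (Fin n) ℂ) :=
    { carrier := {X | ∀ y ∈ Nh h H, i X * y - y * i X ∈ Nh h H}
      zero_mem' := by
        intro y _
        rw [map_zero, Matrix.zero_mul, Matrix.mul_zero, sub_zero]
        exact (Nh h H).zero_mem
      add_mem' := by
        intro X Y hX hY y hy
        have h1 := (Nh h H).add_mem (hX y hy) (hY y hy)
        refine (congrArg (fun z => z ∈ Nh h H) ?_).mp h1
        rw [map_add, Matrix.add_mul, Matrix.mul_add]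
        abel
      smul_mem' := by
        intro c X hX y hy
        have h1 := (Nh h H).smul_mem c (hX y hy)
        refine (congrArg (fun z => z ∈ Nh h H) ?_).mp h1
        rw [map_smul, Matrix.smul_mul, Matrix.mul_smul, smul_sub]
      lie_mem' := by
        intro X Y hX hY y hy
        have h1 := (Nh h H).sub_mem (hX _ (hY y hy)) (hY _ (hX y hy))
        refine (congrArg (fun z => z ∈ Nh h H) ?_).mp h1
        rw [Ring.lie_def, map_sub, hi, hi]
        simp only [Matrix.mul_sub, Matrix.sub_mul, Matrix.mul_assoc]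
        abel }
  have hi0 : ∀ A, IsNilpotent A → IsNilpotent (i A) := by
    rintro A ⟨m, hm⟩
    refine ⟨m + 1, ?_⟩
    have h1 : ∀ m : ℕ, i A ^ (m + 1) = i (A ^ (m + 1)) := by
      intro m
      induction m with
      | zero => rw [zero_add, pow_one, pow_one]
      | succ m ih => rw [pow_succ, ih, ← hi, ← pow_succ]
    rw [h1, pow_succ, hm, zero_mul, map_zero]
  have hK : LieSubalgebra.lieSpan ℂ _ gens ≤ K := by
    rw [LieSubalgebra.lieSpan_le]
    intro A hA y hy
    exact Nh_lie (hi0 A (hgens A hA).1) (hgens A hA).2 hy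
  have hN : ∀ X ∈ L, ∀ y ∈ Nh h H, i X * y - y * i X ∈ Nh h H := fun X hX => hK (hL hX)
  have hh : h ∈ Nh h H := hH
  obtain ⟨X₀, hX₀, hne⟩ := hne
  -- the first ideal
  let I : LieIdeal ℂ L :=
    { carrier := {X | i (X : Matrix (Fin n) (Fin n) ℂ) ∈ Nh h H}
      zero_mem' := by
        show i 0 ∈ Nh h H
        rw [map_zero]
        exact (Nh h H).zero_mem
      add_mem' := by
        intro X Y hX hY
        show i ((X : Matrix (Fin n) (Fin n) ℂ) + (Y : Matrix (Fin n) (Fin n) ℂ)) ∈ Nh h H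
        rw [map_add]
        exact (Nh h H).add_mem hX hY
      smul_mem' := by
        intro c X hX
        show i (c • (X : Matrix (Fin n) (Fin n) ℂ)) ∈ Nh h H
        rw [map_smul]
        exact (Nh h H).smul_mem c hX
      lie_mem := by
        intro X Y hY
        show i ((⁅X, Y⁆ : L) : Matrix (Fin n) (Fin n) ℂ) ∈ Nh h H
        rw [LieSubalgebra.coe_bracket, Ring.lie_def, map_sub, hi, hi]
        exact hN _ X.2 _ hY }
  have hI : I = ⊤ := by
    refine (hs.eq_bot_or_eq_top I).resolve_left fun hbot => hne ?_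
    have h1 : (⟨X₀ * x - x * X₀, hn X₀ hX₀⟩ : L) ∈ I := by
      show i (X₀ * x - x * X₀) ∈ Nh h H
      rw [hx]
      exact hN _ hX₀ _ hh
    rw [hbot, LieSubmodule.mem_bot] at h1
    exact congrArg Subtype.val h1
  have hI' : ∀ X ∈ L, ∀ Y ∈ Hd h, i X * Y - Y * i X ∈ Hd h := by
    intro X hX Y hY
    have h1 : (⟨X, hX⟩ : L) ∈ I := by
      rw [hI]
      exact LieSubmodule.mem_top _
    have h2 : i X ∈ Nh h H := h1
    have h3 := h2 1 H.one_mem Y hY
    rwa [inv_one, Units.val_one, Matrix.one_mul, Matrix.mul_one] at h3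
  -- the second ideal
  let I' : LieIdeal ℂ L :=
    { carrier := {X | i (X : Matrix (Fin n) (Fin n) ℂ) ∈ Hd h}
      zero_mem' := by
        show i 0 ∈ Hd h
        rw [map_zero]
        exact (Hd h).zero_mem
      add_mem' := by
        intro X Y hX hY
        show i ((X : Matrix (Fin n) (Fin n) ℂ) + (Y : Matrix (Fin n) (Fin n) ℂ)) ∈ Hd h
        rw [map_add]
        exact (Hd h).add_mem hX hY
      smul_mem' := by
        intro c X hX
        show i (c • (X : Matrix (Fin n) (Fin n) ℂ)) ∈ Hd h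
        rw [map_smul]
        exact (Hd h).smul_mem c hX
      lie_mem := by
        intro X Y hY
        show i ((⁅X, Y⁆ : L) : Matrix (Fin n) (Fin n) ℂ) ∈ Hd h
        rw [LieSubalgebra.coe_bracket, Ring.lie_def, map_sub, hi, hi]
        exact hI' _ X.2 _ hY }
  have hI2 : I' = ⊤ := by
    refine (hs.eq_bot_or_eq_top I').resolve_left fun hbot => hne ?_
    have h1 : (⟨X₀ * x - x * X₀, hn X₀ hX₀⟩ : L) ∈ I' := by
      show i (X₀ * x - x * X₀) ∈ Hd h
      rw [hx]
      exact hI' _ hX₀ _ (self_mem h)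
    rw [hbot, LieSubmodule.mem_bot] at h1
    exact congrArg Subtype.val h1
  have h1 : (⟨X, hX⟩ : L) ∈ I' := by
    rw [hI2]
    exact LieSubmodule.mem_top _
  exact h1

end Pool.Agent.E8helper3.HG
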