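import Pool.Agent.E8helper3.HG.Hs

/-!
# The trace form is nondegenerate on the Lie algebra of a polarised Hodge structure
-/

set_option autoImplicit false
set_option linter.unusedSectionVars false

open Matrix

namespace Pool.Agent.E8helper3.HG

variable {E : Type} [Fintype E] [DecidableEq E] {h : Matrix E E ℂ} {Q : Matrix E E ℚ}

/-- the form as a tensor of degree two -/
def t2 (Q : Matrix E E ℚ) (I : Fin 2 → E) : ℚ := Q (I 0) (I 1)

theorem kil_t2 (X : Matrix E E ℂ) : Kil X (t2 Q) ↔ Xᵀ * rc Q + rc Q * X = 0 := by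
  rw [kil_iff]
  have key : ∀ J : Fin 2 → E, ∑ l, ∑ b, ((t2 Q (Function.update J l b) : ℚ) : ℂ) * X b (J l) =
      (Xᵀ * rc Q + rc Q * X) (J 0) (J 1) := by
    intro J
    rw [Fin.sum_univ_two, Matrix.add_apply, Matrix.mul_apply, Matrix.mul_apply]
    congr 1
    · refine Finset.sum_congr rfl fun b _ => ?_
      rw [mul_comm]
      rfl
  constructor
  · intro h
    ext i j
    have h1 := key ![i, j]
    rw [h ![i, j]] at h1
    exact h1.symm
  · intro h J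
    rw [key, h]
    rfl

theorem Hd_skew (hs : IsHS h Q) {X : Matrix E E ℂ} (hX : X ∈ Hd h) : Xᵀ * rc Q + rc Q * X = 0 :=
  (kil_t2 X).1 (hX 2 (t2 Q) ((kil_t2 h).2 hs.skew))

section

variable {lam : E → ℤ} {U : Matrix E E ℂ}

/-- orthogonality -/
theorem orth (hs : IsHS h Q) {s r : ℤ} (hsr : s ≠ r) {u v : E → ℂ} (hu : h *ᵥ u = (s : ℂ) • u) (hv : h *ᵥ v = (r : ℂ) • v) :
    u ⬝ᵥ (rc Q *ᵥ cj v) = 0 := by
  have h1 : h *ᵥ cj v = (-(r : ℂ)) • cj v := by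
    have h2 : cm h *ᵥ cj v = cj (h *ᵥ v) := cm_mulVec h v
    rw [hs.conj, neg_mulVec, hv] at h2
    have h3 : h *ᵥ cj v = -cj ((r : ℂ) • v) := by rw [← h2, neg_neg]
    rw [h3]
    funext i
    show -(starRingEnd ℂ) ((r : ℂ) * v i) = -(r : ℂ) * (starRingEnd ℂ) (v i)
    rw [map_mul, map_intCast]
    ring
  have h2 : (h *ᵥ u) ⬝ᵥ (rc Q *ᵥ cj v) + u ⬝ᵥ (rc Q *ᵥ (h *ᵥ cj v)) = 0 := by
    have h3 : (h *ᵥ u) ⬝ᵥ (rc Q *ᵥ cj v) = u ⬝ᵥ ((hᵀ * rc Q) *ᵥ cj v) := by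
      rw [← mulVec_mulVec, dotProduct_mulVec u hᵀ, vecMul_transpose]
    rw [h3, mulVec_mulVec, ← dotProduct_add, ← add_mulVec, hs.skew, zero_mulVec, dotProduct_zero]
  rw [hu, h1, smul_dotProduct, mulVec_smul, dotProduct_smul, smul_eq_mul, smul_eq_mul] at h2
  have h3 : ((s : ℂ) - r) * (u ⬝ᵥ (rc Q *ᵥ cj v)) = 0 := by
    rw [← h2]
    ring
  rcases mul_eq_zero.1 h3 with h4 | h4
  · exfalso
    apply hsr
    have h5 : (s : ℂ) = r := sub_eq_zero.1 h4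
    exact_mod_cast h5
  · exact h4

theorem cj_sum {ι : Type} (S : Finset ι) (w : ι → E → ℂ) : cj (∑ s ∈ S, w s) = ∑ s ∈ S, cj (w s) := by
  funext i
  show (starRingEnd ℂ) ((∑ s ∈ S, w s) i) = _
  rw [Finset.sum_apply, Finset.sum_apply, map_sum]
  rfl

open scoped ComplexOrder in
theorem posDef (hs : IsHS h Q) (hU : IsUnit U) (hUh : h * U = U * diagonal fun i => (lam i : ℂ)) :
    ((rc Q)ᵀ * Cz lam U Complex.I).PosDef := by
  classical
  -- the value of the form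
  have key : ∀ v : E → ℂ, ∃ (S : Finset ℤ) (w : ℤ → E → ℂ), (∀ s, h *ᵥ w s = (s : ℂ) • w s) ∧ v = ∑ s ∈ S, w s ∧
      star v ⬝ᵥ ((rc Q)ᵀ * Cz lam U Complex.I) *ᵥ v = ∑ s ∈ S, Complex.I ^ s * (w s ⬝ᵥ (rc Q *ᵥ cj (w s))) := by
    intro v
    set c : E → ℂ := U⁻¹ *ᵥ v with hc
    have hv : U *ᵥ c = v := by
      rw [hc, mulVec_mulVec, Matrix.mul_nonsing_inv _ ((Matrix.isUnit_iff_isUnit_det _).1 hU), one_mulVec]
    set S : Finset ℤ := Finset.univ.image lam with hS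
    set w : ℤ → E → ℂ := fun s => U *ᵥ fun i => if lam i = s then c i else 0 with hw
    have h1 : ∀ s, h *ᵥ w s = (s : ℂ) • w s := by
      intro s
      rw [hw]
      show h *ᵥ (U *ᵥ _) = (s : ℂ) • (U *ᵥ _)
      rw [mulVec_mulVec, hUh, ← mulVec_mulVec, ← mulVec_smul]
      congr 1
      funext i
      rw [mulVec_diagonal, Pi.smul_apply, smul_eq_mul]
      by_cases hi : lam i = s
      · rw [if_pos hi, hi]
      · rw [if_neg hi, mul_zero, mul_zero]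
    have h2 : v = ∑ s ∈ S, w s := by
      rw [← hv, hw]
      show _ = ∑ s ∈ S, U *ᵥ _
      have h3 : ∀ (T : Finset ℤ) (g : ℤ → E → ℂ), ∑ s ∈ T, U *ᵥ g s = U *ᵥ ∑ s ∈ T, g s := by
        intro T g
        exact (map_sum U.mulVecLin g T).symm
      rw [h3]
      congr 1
      funext i
      rw [Finset.sum_apply, Finset.sum_ite_eq, if_pos]
      exact Finset.mem_image_of_mem _ (Finset.mem_univ i)
    have h3 : Cz lam U Complex.I *ᵥ v = ∑ s ∈ S, Complex.I ^ s • w s := by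
      have h4 : ∀ s, Cz lam U Complex.I *ᵥ w s = Complex.I ^ s • w s := by
        intro s
        rw [hw]
        show Cz lam U Complex.I *ᵥ (U *ᵥ _) = Complex.I ^ s • (U *ᵥ _)
        rw [Cz_col hU, ← mulVec_smul]
        congr 1
        funext i
        rw [Pi.smul_apply, smul_eq_mul]
        by_cases hi : lam i = s
        · rw [if_pos hi, hi]
        · rw [if_neg hi, mul_zero, mul_zero]
      rw [h2]
      have h5 : Cz lam U Complex.I *ᵥ (∑ s ∈ S, w s) = ∑ s ∈ S, Cz lam U Complex.I *ᵥ w s :=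
        map_sum (Cz lam U Complex.I).mulVecLin w S
      rw [h5]
      exact Finset.sum_congr rfl fun s _ => h4 s
    refine ⟨S, w, h1, h2, ?_⟩
    have h4 : star v ⬝ᵥ ((rc Q)ᵀ * Cz lam U Complex.I) *ᵥ v = (Cz lam U Complex.I *ᵥ v) ⬝ᵥ (rc Q *ᵥ cj v) := by
      rw [← mulVec_mulVec, dotProduct_comm, ← vecMul_transpose, transpose_transpose, ← dotProduct_mulVec]
      rfl
    rw [h4, h3]
    have h5 : rc Q *ᵥ cj v = ∑ s ∈ S, rc Q *ᵥ cj (w s) := by
      conv_lhs => rw [h2]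
      rw [cj_sum]
      exact map_sum (rc Q).mulVecLin (fun s => cj (w s)) S
    rw [h5, sum_dotProduct]
    refine Finset.sum_congr rfl fun s hsS => ?_
    rw [smul_dotProduct, smul_eq_mul, dotProduct_sum, Finset.sum_eq_single s]
    · intro r _ hr
      exact orth hs (Ne.symm hr) (h1 s) (h1 r)
    · intro h
      exact absurd hsS h
  have him : ∀ v : E → ℂ, (star v ⬝ᵥ ((rc Q)ᵀ * Cz lam U Complex.I) *ᵥ v).im = 0 := by
    intro v
    obtain ⟨S, w, h1, _, h3⟩ := key v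
    rw [h3, Complex.im_sum]
    refine Finset.sum_eq_zero fun s _ => ?_
    by_cases hw : w s = 0
    · rw [hw, zero_dotProduct, mul_zero, Complex.zero_im]
    · exact (hs.pos s (w s) (h1 s) hw).2
  refine Matrix.PosDef.of_dotProduct_mulVec_pos (herm_of_real him) fun v hv => ?_
  rw [Complex.lt_def]
  refine ⟨?_, (him v).symm⟩
  rw [Complex.zero_re]
  obtain ⟨S, w, h1, h2, h3⟩ := key v
  rw [h3, Complex.re_sum]
  have h4 : ∀ s ∈ S, 0 ≤ (Complex.I ^ s * (w s ⬝ᵥ (rc Q *ᵥ cj (w s)))).re := by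
    intro s _
    by_cases hw : w s = 0
    · rw [hw, zero_dotProduct, mul_zero, Complex.zero_re]
    · exact (hs.pos s (w s) (h1 s) hw).1.le
  obtain ⟨s, hsS, hs0⟩ : ∃ s ∈ S, w s ≠ 0 := by
    by_contra hcon
    push Not at hcon
    exact hv (h2.trans (Finset.sum_eq_zero hcon))
  exact Finset.sum_pos' h4 ⟨s, hsS, (hs.pos s (w s) (h1 s) hs0).1⟩

open scoped ComplexOrder MatrixOrder Matrix.Norms.L2Operator in
theorem exists_factor {P0 : Matrix E E ℂ} (hpd : P0.PosDef) : ∃ y : Matrix E E ℂ, IsUnit y ∧ P0 = yᴴ * y := by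
  obtain ⟨y, hy, h⟩ := CStarAlgebra.isStrictlyPositive_iff_eq_star_mul_self.mp hpd.isStrictlyPositive
  exact ⟨y, hy, by rw [h, star_eq_conjTranspose]⟩

open scoped ComplexOrder in
/-- the trace form is nondegenerate -/
theorem trace_nondeg (hs : IsHS h Q) {X : Matrix E E ℂ} (hX : X ∈ Hd h) (hT : ∀ Y ∈ Hd h, trace (X * Y) = 0) : X = 0 := by
  classical
  obtain ⟨lam, U, hU, hUh⟩ := exists_eigen hs.diag
  have hI : Complex.I ≠ 0 := Complex.I_ne_zero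
  set C := Cz lam U Complex.I with hC
  set Ci := Cz lam U Complex.I⁻¹ with hCi
  have hCC : C * Ci = 1 := by
    rw [hC, hCi, Cz_mul hU, mul_inv_cancel₀ hI, Cz_one hU]
  set P0 := (rc Q)ᵀ * C with hP0
  have hpd : P0.PosDef := posDef hs hU hUh
  have hY : -(Ci * cm X * C) ∈ Hd h := (Hd h).neg_mem (Hd_conj hU hI hUh (Hd_cm hX))
  have h1 := hT _ hY
  have h2 : P0 * (-(Ci * cm X * C)) = Xᴴ * P0 := by
    have h3 := Hd_skew hs (Hd_cm hX)
    have h4 : (rc Q)ᵀ * cm X + Xᴴ * (rc Q)ᵀ = 0 := by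
      have h5 := congrArg Matrix.transpose h3
      rw [transpose_add, transpose_mul, transpose_mul, transpose_transpose, transpose_zero] at h5
      exact h5
    have h5 : Xᴴ * (rc Q)ᵀ = -((rc Q)ᵀ * cm X) := by
      rw [eq_neg_iff_add_eq_zero, add_comm]
      exact h4
    rw [hP0, ← Matrix.mul_assoc Xᴴ, h5, Matrix.mul_neg, Matrix.neg_mul]
    congr 1
    calc (rc Q)ᵀ * C * (Ci * cm X * C) = (rc Q)ᵀ * (C * Ci) * cm X * C := by simp only [Matrix.mul_assoc]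
      _ = _ := by rw [hCC, Matrix.mul_one]
  obtain ⟨y, hy, hPy⟩ := exists_factor hpd
  have hyd := (Matrix.isUnit_iff_isUnit_det _).1 hy
  have hy1 : y * y⁻¹ = 1 := Matrix.mul_nonsing_inv _ hyd
  have hy2 : y⁻¹ * y = 1 := Matrix.nonsing_inv_mul _ hyd
  have hy3 : yᴴ⁻¹ * yᴴ = 1 := by
    rw [← conjTranspose_nonsing_inv, ← conjTranspose_mul, hy1, conjTranspose_one]
  have h3 : -(Ci * cm X * C) = y⁻¹ * yᴴ⁻¹ * Xᴴ * yᴴ * y := by
    have h4 : y⁻¹ * yᴴ⁻¹ * P0 = 1 := by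
      rw [hPy, Matrix.mul_assoc, ← Matrix.mul_assoc yᴴ⁻¹, hy3, Matrix.one_mul, hy2]
    calc -(Ci * cm X * C) = (y⁻¹ * yᴴ⁻¹ * P0) * (-(Ci * cm X * C)) := by rw [h4, Matrix.one_mul]
      _ = y⁻¹ * yᴴ⁻¹ * (P0 * (-(Ci * cm X * C))) := by simp only [Matrix.mul_assoc]
      _ = y⁻¹ * yᴴ⁻¹ * (Xᴴ * (yᴴ * y)) := by rw [h2, hPy]
      _ = _ := by simp only [Matrix.mul_assoc]
  have h4 : (y * X * y⁻¹) * (y * X * y⁻¹)ᴴ = y * (X * (-(Ci * cm X * C))) * y⁻¹ := by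
    rw [h3, conjTranspose_mul, conjTranspose_mul, conjTranspose_nonsing_inv]
    calc y * X * y⁻¹ * (yᴴ⁻¹ * (Xᴴ * yᴴ)) = y * X * y⁻¹ * (yᴴ⁻¹ * (Xᴴ * yᴴ)) * (y * y⁻¹) := by rw [hy1, Matrix.mul_one]
      _ = _ := by simp only [Matrix.mul_assoc]
  have h5 : trace ((y * X * y⁻¹) * (y * X * y⁻¹)ᴴ) = 0 := by
    rw [h4, trace_mul_comm, ← Matrix.mul_assoc, hy2, Matrix.one_mul]
    exact h1
  have h6 : y * X * y⁻¹ = 0 := trace_mul_conjTranspose_self_eq_zero_iff.1 h5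
  calc X = (y⁻¹ * y) * X * (y⁻¹ * y) := by rw [hy2, Matrix.one_mul, Matrix.mul_one]
    _ = y⁻¹ * (y * X * y⁻¹) * y := by simp only [Matrix.mul_assoc]
    _ = 0 := by rw [h6, Matrix.mul_zero, Matrix.zero_mul]

end

end Pool.Agent.E8helper3.HG
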