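import Pool.Agent.E8helper3.HG.Pr

/-!
# Tensors killed by the orthogonal and symplectic Lie algebras of the factors are products
-/

set_option autoImplicit false
set_option linter.unusedSectionVars false

open Matrix Module

namespace Pool.Agent.E8helper3.HG

open Pool.Agent.TH125.Nod (Sup Gen gen)

variable {r k n a : ℕ} {hZ : Matrix (Fin r) (Fin r) ℂ} {Q : Fin k → Matrix (Fin n) (Fin n) ℚ}

/-- the values with coefficients in the annihilated tensors -/
noncomputable def vf (t : (Fin a → IE r k n) → ℚ) (ht : KS (fromBlocks hZ 0 0 0) t) (c : Fin a → Option (Fin k)) :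
    (PS c → Fin n × Fin k) → MZ hZ (PT c) := fun J => ⟨fun I => t (mrg c I J), val_mem ht c J⟩

/-- reassembling -/
noncomputable def asm (hZ : Matrix (Fin r) (Fin r) ℂ) (c : Fin a → Option (Fin k)) :
    ((PS c → Fin n × Fin k) → MZ hZ (PT c)) →ₗ[ℚ] ((Fin a → IE r k n) → ℚ) where
  toFun f := fun G => ∑ I : PT c → Fin r, ∑ J : PS c → Fin n × Fin k,
    if G = mrg c I J then ((f J : MZ hZ (PT c)) : (PT c → Fin r) → ℚ) I else 0
  map_add' f g := by
    funext G
    rw [Pi.add_apply, ← Finset.sum_add_distrib]
    refine Finset.sum_congr rfl fun I _ => ?_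
    rw [← Finset.sum_add_distrib]
    refine Finset.sum_congr rfl fun J _ => ?_
    split_ifs
    · rfl
    · exact (add_zero _).symm
  map_smul' q f := by
    funext G
    rw [Pi.smul_apply, RingHom.id_apply, Finset.smul_sum]
    refine Finset.sum_congr rfl fun I _ => ?_
    rw [Finset.smul_sum]
    refine Finset.sum_congr rfl fun J _ => ?_
    split_ifs
    · rfl
    · exact (smul_zero _).symm

theorem asm_mrg (c : Fin a → Option (Fin k)) (f : (PS c → Fin n × Fin k) → MZ hZ (PT c)) (I : PT c → Fin r)
    (J : PS c → Fin n × Fin k) : asm hZ c f (mrg c I J) = ((f J : MZ hZ (PT c)) : (PT c → Fin r) → ℚ) I := by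
  show ∑ I' : PT c → Fin r, ∑ J' : PS c → Fin n × Fin k,
    (if mrg c I J = mrg c I' J' then ((f J' : MZ hZ (PT c)) : (PT c → Fin r) → ℚ) I' else 0) = _
  rw [Finset.sum_eq_single I, Finset.sum_eq_single J, if_pos rfl]
  · intro J' _ hJ'
    rw [if_neg fun h => hJ' (mrg_inj c h).2.symm]
  · intro h
    exact absurd (Finset.mem_univ _) h
  · intro I' _ hI'
    refine Finset.sum_eq_zero fun J' _ => ?_
    rw [if_neg fun h => hI' (mrg_inj c h).1.symm]
  · intro h
    exact absurd (Finset.mem_univ _) h

theorem asm_not (c : Fin a → Option (Fin k)) (f : (PS c → Fin n × Fin k) → MZ hZ (PT c)) {G : Fin a → IE r k n}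
    (hG : ∀ I J, G ≠ mrg c I J) : asm hZ c f G = 0 := by
  refine Finset.sum_eq_zero fun I _ => Finset.sum_eq_zero fun J _ => ?_
  rw [if_neg (hG I J)]

theorem asm_vf (t : (Fin a → IE r k n) → ℚ) (c : Fin a → Option (Fin k)) (ht : KS (fromBlocks hZ 0 0 0) (prt c t)) :
    asm hZ c (vf (prt c t) ht c) = prt c t := by
  classical
  funext G
  by_cases hG : ∃ I J, G = mrg c I J
  · obtain ⟨I, J, rfl⟩ := hG
    rw [asm_mrg]
    rfl
  · push Not at hG
    rw [asm_not c _ hG]
    unfold prt
    rw [if_neg]
    intro h
    obtain ⟨I, J, h1⟩ := exists_mrg c h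
    exact hG I J h1

theorem ext0_inl {b : ℕ} (w : (Fin b → Fin r) → ℚ) (x : Fin b → Fin r) :
    ext0 (k := k) (n := n) w (fun i => Sum.inl (x i)) = w x := by
  unfold ext0
  rw [Finset.sum_eq_single x, if_pos rfl]
  · intro y _ hy
    rw [if_neg]
    intro h
    apply hy
    funext i
    exact (Sum.inl_injective (congrFun h i)).symm
  · intro h
    exact absurd (Finset.mem_univ _) h

theorem ext0_not {b : ℕ} (w : (Fin b → Fin r) → ℚ) {G : Fin b → IE r k n} {i : Fin b} {p : Fin n × Fin k}
    (hG : G i = Sum.inr p) : ext0 w G = 0 := by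
  unfold ext0
  refine Finset.sum_eq_zero fun x _ => ?_
  rw [if_neg]
  intro h
  rw [h] at hG
  exact absurd hG (by simp)

theorem QI_inr (j : Fin k) (x y : Fin n × Fin k) : QI (r := r) Q j (Sum.inr x) (Sum.inr y) =
    if x.2 = j then blockDiagonal Q x y else 0 := by
  obtain ⟨x, i⟩ := x
  obtain ⟨y, i'⟩ := y
  show blockDiagonal (Pi.single j (Q j) : Fin k → Matrix (Fin n) (Fin n) ℚ) (x, i) (y, i') = if i = j then _ else 0
  by_cases h : i = i'
  · subst h
    rw [blockDiagonal_apply_eq, blockDiagonal_apply_eq]
    by_cases hj : i = j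
    · subst hj
      rw [Pi.single_eq_same, if_pos rfl]
    · rw [Pi.single_eq_of_ne hj, if_neg hj]
      rfl
  · rw [blockDiagonal_apply_ne _ _ _ h, blockDiagonal_apply_ne _ _ _ h, ite_self]

theorem QI_inl (j : Fin k) (x : Fin r) (y : IE r k n) : QI (r := r) Q j (Sum.inl x) y = 0 := by
  rcases y with y | y <;> rfl

theorem QI_inl' (j : Fin k) (x : IE r k n) (y : Fin r) : QI (r := r) Q j x (Sum.inl y) = 0 := by
  rcases x with x | x <;> rfl

/-- the generators are products -/
theorem asm_gen (c : Fin a → Option (Fin k)) {m : ℕ} (e : Fin m × Fin 2 ≃ PS c) (w : MZ hZ (PT c)) :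
    asm hZ c (gen (Prod.snd : Fin n × Fin k → Fin k) (blockDiagonal Q) (cS c) e w) ∈ Prods r hZ Q a := by
  classical
  by_cases hpair : ∀ l, cS c (e (l, 0)) = cS c (e (l, 1))
  · -- the enumeration of the other places
    let q : PT c ≃ Fin (Fintype.card (PT c)) := Fintype.equivFin (PT c)
    let σ : Fin (Fintype.card (PT c)) ⊕ (Fin m × Fin 2) ≃ Fin a :=
      ((Equiv.sumCongr q.symm e).trans (Equiv.sumComm _ _)).trans (Equiv.sumCompl fun l => ((c l).isSome : Prop))
    have hσ1 : ∀ i, σ (Sum.inl i) = (q.symm i).1 := fun i => rfl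
    have hσ2 : ∀ p, σ (Sum.inr p) = (e p).1 := fun p => rfl
    refine Submodule.subset_span ⟨Fintype.card (PT c), m, σ, fun x => (w : (PT c → Fin r) → ℚ) fun l => x (q l),
      fun l => cS c (e (l, 0)), ?_, ?_⟩
    · intro J
      have h1 := w.2 fun l => J (q l)
      rw [← Equiv.sum_comp q]
      refine Eq.trans ?_ h1
      refine Finset.sum_congr rfl fun l _ => Finset.sum_congr rfl fun b _ => ?_
      have h2 : (fun l' => Function.update J (q l) b (q l')) = Function.update (fun l => J (q l)) l b := by
        funext l'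
        by_cases h : l' = l
        · subst h
          rw [Function.update_self, Function.update_self]
        · rw [Function.update_of_ne h, Function.update_of_ne fun h' => h (q.injective h')]
      show (((w : (PT c → Fin r) → ℚ) fun l' => Function.update J (q l) b (q l') : ℚ) : ℂ) * _ = _
      rw [h2]
    · funext G
      by_cases hG : ∃ I J, G = mrg c I J
      · obtain ⟨I, J, rfl⟩ := hG
        rw [asm_mrg]
        have h1 : (fun i => mrg c I J (σ (Sum.inl i))) = fun i => Sum.inl (I (q.symm i)) := by
          funext i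
          rw [hσ1, mrg_T]
        rw [h1, ext0_inl]
        have h2 : (fun l => I (q.symm (q l))) = I := by
          funext l
          rw [Equiv.symm_apply_apply]
        rw [h2]
        have h3 : ∀ l, QI Q (cS c (e (l, 0))) (mrg c I J (σ (Sum.inr (l, 0)))) (mrg c I J (σ (Sum.inr (l, 1)))) =
            if (J (e (l, 0))).2 = cS c (e (l, 0)) then blockDiagonal Q (J (e (l, 0))) (J (e (l, 1))) else 0 := by
          intro l
          rw [hσ2, hσ2, mrg_S, mrg_S, QI_inr]
        rw [Finset.prod_congr rfl fun l _ => h3 l]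
        unfold gen
        by_cases hJ : ∀ s, (J s).2 = cS c s
        · rw [if_pos hJ]
          have h4 : ∀ l, (if (J (e (l, 0))).2 = cS c (e (l, 0)) then blockDiagonal Q (J (e (l, 0))) (J (e (l, 1))) else 0) =
              blockDiagonal Q (J (e (l, 0))) (J (e (l, 1))) := fun l => if_pos (hJ _)
          rw [Finset.prod_congr rfl fun l _ => h4 l]
          show (∏ l, blockDiagonal Q (J (e (l, 0))) (J (e (l, 1)))) * (w : (PT c → Fin r) → ℚ) I = _
          ring
        · rw [if_neg hJ]
          show (0 : ℚ) = _
          push Not at hJ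
          obtain ⟨s, hs⟩ := hJ
          obtain ⟨⟨l, ε⟩, rfl⟩ := e.surjective s
          rw [Finset.prod_eq_zero (Finset.mem_univ l), mul_zero]
          by_cases h0 : (J (e (l, 0))).2 = cS c (e (l, 0))
          · rw [if_pos h0]
            have h5 : ε = 1 := by
              by_contra h6
              have h7 : ε = 0 := by
                fin_cases ε
                · rfl
                · exact absurd rfl h6
              rw [h7] at hs
              exact hs h0
            rw [h5] at hs
            have h8 : (J (e (l, 0))).2 ≠ (J (e (l, 1))).2 := by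
              intro h9
              exact hs (h9.symm.trans (h0.trans (hpair l)))
            rw [blockDiagonal_apply, if_neg h8]
          · rw [if_neg h0]
      · push Not at hG
        rw [asm_not c _ hG]
        by_cases h1 : ∃ i, ∃ p, G (σ (Sum.inl i)) = Sum.inr p
        · obtain ⟨i, p, h2⟩ := h1
          rw [ext0_not (i := i) (p := p) _ h2, zero_mul]
        · by_cases h3 : ∃ (p : Fin m × Fin 2) (x : Fin r), G (σ (Sum.inr p)) = Sum.inl x
          · obtain ⟨⟨l, ε⟩, x, h4⟩ := h3
            rw [Finset.prod_eq_zero (Finset.mem_univ l), mul_zero]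
            fin_cases ε
            · have h5 : G (σ (Sum.inr (l, 0))) = Sum.inl x := h4
              rw [h5, QI_inl]
            · have h5 : G (σ (Sum.inr (l, 1))) = Sum.inl x := h4
              rw [h5, QI_inl']
          · exfalso
            push Not at h1 h3
            have h4 : ∀ s : PS c, ∃ p, G s.1 = Sum.inr p := by
              intro s
              obtain ⟨p, rfl⟩ := e.surjective s
              rcases hp : G (σ (Sum.inr p)) with x | y
              · exact absurd hp (h3 p x)
              · exact ⟨y, by rw [← hσ2]; exact hp⟩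
            have h5 : ∀ l : PT c, ∃ x, G l.1 = Sum.inl x := by
              intro l
              rcases hp : G (σ (Sum.inl (q l))) with x | y
              · refine ⟨x, ?_⟩
                rw [hσ1, Equiv.symm_apply_apply] at hp
                exact hp
              · exact absurd hp (h1 (q l) y)
            choose J hJ using h4
            choose I hI using h5
            apply hG I J
            funext l
            by_cases hl : (c l).isSome
            · exact (hJ ⟨l, hl⟩).trans (mrg_S c I J ⟨l, hl⟩).symm
            · exact (hI ⟨l, hl⟩).trans (mrg_T c I J ⟨l, hl⟩).symm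
  · -- the generator is zero
    push Not at hpair
    obtain ⟨l, hl⟩ := hpair
    have h1 : gen (Prod.snd : Fin n × Fin k → Fin k) (blockDiagonal Q) (cS c) e w = 0 := by
      funext J
      unfold gen
      split_ifs with h
      · rw [Finset.prod_eq_zero (Finset.mem_univ l), zero_smul]
        · rfl
        · rw [blockDiagonal_apply, if_neg]
          intro h2
          apply hl
          rw [← h, ← h]
          exact h2
      · rfl
    rw [h1, map_zero]
    exact Submodule.zero_mem _

/-- **Tensors killed by the Lie algebras of the forms are products.** -/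
theorem prod_main {s : Fin k → ℤ} (hs : ∀ j, s j = 1 ∨ s j = -1) (hQs : ∀ j x y, Q j x y = (s j : ℚ) * Q j y x)
    (hQu : ∀ j, IsUnit (Q j)) {t : (Fin a → IE r k n) → ℚ} (ht : KS (fromBlocks hZ 0 0 0) t)
    (htX : ∀ j, ∀ X : Matrix (Fin n) (Fin n) ℂ, Xᵀ * rc (Q j) + rc (Q j) * X = 0 → KS (iX r j X) t)
    (hcount : ∀ J, t J ≠ 0 → ∀ j, s j = 1 → (Finset.univ.filter fun l => col (J l) = some j).card < n) :
    t ∈ Prods r hZ Q a := by
  classical
  rw [sum_prt t]
  refine Submodule.sum_mem _ fun c _ => ?_
  by_cases h0 : prt c t = 0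
  · rw [h0]
    exact Submodule.zero_mem _
  have hb1 : ∀ x y : IE r k n, col x ≠ col y → (fromBlocks hZ 0 0 0 : Matrix (IE r k n) (IE r k n) ℂ) x y = 0 := by
    rintro (x | x) (y | y) h
    · exact absurd rfl h
    · rfl
    · rfl
    · rfl
  have hb2 : ∀ (j : Fin k) (X : Matrix (Fin n) (Fin n) ℂ) (x y : IE r k n), col x ≠ col y → iX r j X x y = 0 := by
    rintro j X (x | ⟨x, i⟩) (y | ⟨y, i'⟩) h
    · rfl
    · rfl
    · rfl
    · show blockDiagonal (Pi.single j X : Fin k → Matrix (Fin n) (Fin n) ℂ) (x, i) (y, i') = 0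
      rw [blockDiagonal_apply_ne]
      rintro rfl
      exact h rfl
  have hc := KS_prt hb1 ht c
  have hcX : ∀ j, ∀ X : Matrix (Fin n) (Fin n) ℂ, Xᵀ * rc (Q j) + rc (Q j) * X = 0 → KS (iX r j X) (prt c t) :=
    fun j X hX => KS_prt (hb2 j X) (htX j X hX) c
  rw [← asm_vf t c hc]
  have hfft : vf (prt c t) hc c ∈ Gen (Prod.snd : Fin n × Fin k → Fin k) (blockDiagonal Q) (cS c) := by
    have hinvj : ∀ j, Q j * (Q j)⁻¹ = 1 := fun j => Matrix.mul_nonsing_inv _ ((Matrix.isUnit_iff_isUnit_det _).1 (hQu j))
    refine Pool.Agent.TH125.Nod.fft (K := ℚ) (s := s) (R := blockDiagonal fun j => (Q j)⁻¹) hs ?_ ?_ ?_ _ (PS c) (cS c) _ rfl ?_ ?_ ?_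
    · intro x y hxy
      rw [blockDiagonal_apply, if_neg hxy]
    · rintro ⟨x, i⟩ ⟨y, i'⟩
      show blockDiagonal Q (x, i) (y, i') = (s i : ℚ) * blockDiagonal Q (y, i') (x, i)
      by_cases h : i = i'
      · subst h
        rw [blockDiagonal_apply_eq, blockDiagonal_apply_eq]
        exact hQs i x y
      · rw [blockDiagonal_apply_ne _ _ _ h, blockDiagonal_apply_ne _ _ _ (Ne.symm h), mul_zero]
    · rw [← blockDiagonal_mul]
      have h1 : (fun j => Q j * (Q j)⁻¹) = 1 := funext hinvj
      rw [h1, blockDiagonal_one]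
    · intro J hJ
      refine Subtype.ext ?_
      funext I
      show prt c t (mrg c I J) = 0
      unfold prt
      rw [if_neg]
      rw [col_mrg_S]
      exact hJ
    · rintro ⟨u, j⟩ ⟨v, j'⟩ huv J
      have huv' : j = j' := huv
      subst huv'
      refine Subtype.ext ?_
      funext I
      have h1 := inv_main (s := s) (t := prt c t) (Q := Q) c (j := j) (u := u) (v := v)
        (hcX j _ (opX_skew (by rcases hs j with h | h <;> rw [h] <;> norm_num) (hQs j) u v)) I J
      have h2 : ((∑ l, ((blockDiagonal Q (v, j) (J l)) • vf (prt c t) hc c (Function.update J l (u, j)) -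
          ((((s j : ℤ) : ℚ)) * blockDiagonal Q (u, j) (J l)) • vf (prt c t) hc c (Function.update J l (v, j))) :
          MZ hZ (PT c)) : (PT c → Fin r) → ℚ) I = 0 := by
        rw [Submodule.coe_sum, Finset.sum_apply]
        exact h1
      exact h2
    · intro j hj
      -- the number of places
      obtain ⟨J, hJ⟩ : ∃ J, prt c t J ≠ 0 := by
        by_contra hcon
        push Not at hcon
        exact h0 (funext hcon)
      have hJ' : (∀ l, col (J l) = c l) ∧ t J ≠ 0 := by
        unfold prt at hJ
        split_ifs at hJ with h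
        · exact ⟨h, hJ⟩
        · exact absurd rfl hJ
      have h1 := hcount J hJ'.2 j hj
      have h2 : (Pool.Agent.TH125.Nod.blk (Prod.snd : Fin n × Fin k → Fin k) j).card = n := by
        unfold Pool.Agent.TH125.Nod.blk
        have h3 : (Finset.univ.filter fun b : Fin n × Fin k => b.2 = j) = Finset.univ ×ˢ {j} := by
          ext ⟨x, i⟩
          simp [eq_comm]
        rw [h3, Finset.card_product, Finset.card_univ, Fintype.card_fin, Finset.card_singleton, mul_one]
      rw [h2]
      refine lt_of_le_of_lt ?_ h1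
      refine Finset.card_le_card_of_injOn (fun l => l.1) ?_ fun l _ l' _ h => Subtype.ext h
      intro l hl
      rw [Finset.coe_filter] at hl ⊢
      refine ⟨Finset.mem_univ _, ?_⟩
      rw [hJ'.1]
      have h3 : cS c l = j := hl.2
      rw [← h3]
      exact (Option.some_get l.2).symm
  -- conclusion
  unfold Gen at hfft
  generalize vf (prt c t) hc c = f at hfft
  induction hfft using Submodule.span_induction with
  | mem x hx =>
    obtain ⟨m, e, w, rfl⟩ := hx
    exact asm_gen c e w
  | zero => rw [map_zero]; exact Submodule.zero_mem _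
  | add x y _ _ hx hy => rw [map_add]; exact Submodule.add_mem _ hx hy
  | smul q x _ hx => rw [map_smul]; exact Submodule.smul_mem _ q hx

end Pool.Agent.E8helper3.HG
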