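import Pool.Agent.E8helper3.HG.En
import Pool.Agent.TH125.Nod.Fft2

/-!
# Tensors killed by the orthogonal and symplectic Lie algebras of the factors
-/

set_option autoImplicit false
set_option linter.unusedSectionVars false

open Matrix Module

namespace Pool.Agent.E8helper3.HG

open Pool.Agent.TH125.Nod (Sup Gen gen)

/-- `X` annihilates the tensor, in coordinates -/
def KS {S E : Type} [Fintype S] [DecidableEq S] [Fintype E] (X : Matrix E E ℂ) (w : (S → E) → ℚ) : Prop :=
  ∀ J : S → E, ∑ l, ∑ b, (w (Function.update J l b) : ℂ) * X b (J l) = 0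

variable {r k n a : ℕ}

/-- the colour of an index -/
def col : IE r k n → Option (Fin k) := Sum.elim (fun _ => none) fun p => some p.2

/-- the form of one factor -/
def QI (Q : Fin k → Matrix (Fin n) (Fin n) ℚ) (j : Fin k) : Matrix (IE r k n) (IE r k n) ℚ :=
  fromBlocks 0 0 0 (blockDiagonal (Pi.single j (Q j)))

/-- extension by zero -/
def ext0 {b : ℕ} (w : (Fin b → Fin r) → ℚ) (I : Fin b → IE r k n) : ℚ :=
  ∑ x : Fin b → Fin r, if I = fun i => Sum.inl (x i) then w x else 0

/-- the products of tensors annihilated by `hZ` and of the forms -/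
def Prods (r : ℕ) {k n : ℕ} (hZ : Matrix (Fin r) (Fin r) ℂ) (Q : Fin k → Matrix (Fin n) (Fin n) ℚ) (a : ℕ) :
    Submodule ℚ ((Fin a → IE r k n) → ℚ) :=
  Submodule.span ℚ {t | ∃ (b m : ℕ) (σ : Fin b ⊕ (Fin m × Fin 2) ≃ Fin a) (w : (Fin b → Fin r) → ℚ) (d : Fin m → Fin k),
    KS hZ w ∧ t = fun J => ext0 w (fun i => J (σ (Sum.inl i))) *
      ∏ l, QI Q (d l) (J (σ (Sum.inr (l, 0)))) (J (σ (Sum.inr (l, 1))))}

section pattern

variable (c : Fin a → Option (Fin k))

/-- the places of the factors -/
abbrev PS : Type := {l : Fin a // (c l).isSome}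
/-- the other places -/
abbrev PT : Type := {l : Fin a // ¬ (c l).isSome}

/-- the colour of a place -/
def cS (l : PS c) : Fin k := (c l.1).get l.2

/-- an index with given parts -/
def mrg (I : PT c → Fin r) (J : PS c → Fin n × Fin k) : Fin a → IE r k n := fun l =>
  if h : (c l).isSome then Sum.inr (J ⟨l, h⟩) else Sum.inl (I ⟨l, h⟩)

theorem mrg_S (I : PT c → Fin r) (J : PS c → Fin n × Fin k) (l : PS c) : mrg c I J l.1 = Sum.inr (J l) := by
  unfold mrg
  rw [dif_pos l.2]

theorem mrg_T (I : PT c → Fin r) (J : PS c → Fin n × Fin k) (l : PT c) : mrg c I J l.1 = Sum.inl (I l) := by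
  unfold mrg
  rw [dif_neg l.2]

theorem mrg_inj {I I' : PT c → Fin r} {J J' : PS c → Fin n × Fin k} (h : mrg c I J = mrg c I' J') : I = I' ∧ J = J' := by
  constructor
  · funext l
    have h1 := congrFun h l.1
    rw [mrg_T, mrg_T] at h1
    exact Sum.inl_injective h1
  · funext l
    have h1 := congrFun h l.1
    rw [mrg_S, mrg_S] at h1
    exact Sum.inr_injective h1

theorem mrg_upd_S (I : PT c → Fin r) (J : PS c → Fin n × Fin k) (l : PS c) (x : Fin n × Fin k) :
    Function.update (mrg c I J) l.1 (Sum.inr x) = mrg c I (Function.update J l x) := by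
  funext m
  by_cases hm : (c m).isSome
  · have e1 : mrg c I (Function.update J l x) m = Sum.inr (Function.update J l x ⟨m, hm⟩) := mrg_S c _ _ ⟨m, hm⟩
    rw [e1]
    by_cases h : m = l.1
    · subst h
      rw [Function.update_self]
      have e2 : (⟨l.1, hm⟩ : PS c) = l := Subtype.ext rfl
      rw [e2, Function.update_self]
    · rw [Function.update_of_ne h, Function.update_of_ne (fun h' => h (congrArg Subtype.val h'))]
      exact mrg_S c I J ⟨m, hm⟩
  · have e1 : mrg c I (Function.update J l x) m = Sum.inl (I ⟨m, hm⟩) := mrg_T c _ _ ⟨m, hm⟩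
    have h : m ≠ l.1 := by
      rintro rfl
      exact hm l.2
    rw [e1, Function.update_of_ne h]
    exact mrg_T c I J ⟨m, hm⟩

theorem mrg_upd_T (I : PT c → Fin r) (J : PS c → Fin n × Fin k) (l : PT c) (x : Fin r) :
    Function.update (mrg c I J) l.1 (Sum.inl x) = mrg c (Function.update I l x) J := by
  funext m
  by_cases hm : (c m).isSome
  · have e1 : mrg c (Function.update I l x) J m = Sum.inr (J ⟨m, hm⟩) := mrg_S c _ _ ⟨m, hm⟩
    have h : m ≠ l.1 := by
      rintro rfl
      exact l.2 hm
    rw [e1, Function.update_of_ne h]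
    exact mrg_S c I J ⟨m, hm⟩
  · have e1 : mrg c (Function.update I l x) J m = Sum.inl (Function.update I l x ⟨m, hm⟩) := mrg_T c _ _ ⟨m, hm⟩
    rw [e1]
    by_cases h : m = l.1
    · subst h
      rw [Function.update_self]
      have e2 : (⟨l.1, hm⟩ : PT c) = l := Subtype.ext rfl
      rw [e2, Function.update_self]
    · rw [Function.update_of_ne h, Function.update_of_ne (fun h' => h (congrArg Subtype.val h'))]
      exact mrg_T c I J ⟨m, hm⟩

/-- an index which matches the pattern is composed -/
theorem exists_mrg {G : Fin a → IE r k n} (h : ∀ l, col (G l) = c l) : ∃ I J, G = mrg c I J := by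
  have h1 : ∀ l : PS c, ∃ p, G l.1 = Sum.inr p := by
    intro l
    have h2 := h l.1
    rcases hG : G l.1 with x | p
    · rw [hG] at h2
      have h3 : (none : Option (Fin k)) = c l.1 := h2
      have h4 := l.2
      rw [← h3] at h4
      exact absurd h4 (by simp)
    · exact ⟨p, rfl⟩
  have h2 : ∀ l : PT c, ∃ x, G l.1 = Sum.inl x := by
    intro l
    have h2 := h l.1
    rcases hG : G l.1 with x | p
    · exact ⟨x, rfl⟩
    · rw [hG] at h2
      have h3 : some p.2 = c l.1 := h2
      have h4 := l.2
      rw [← h3] at h4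
      exact absurd rfl h4
  choose J hJ using h1
  choose I hI using h2
  refine ⟨I, J, ?_⟩
  funext l
  by_cases hl : (c l).isSome
  · exact (hJ ⟨l, hl⟩).trans (mrg_S c I J ⟨l, hl⟩).symm
  · exact (hI ⟨l, hl⟩).trans (mrg_T c I J ⟨l, hl⟩).symm

theorem col_mrg_S (I : PT c → Fin r) (J : PS c → Fin n × Fin k) :
    (∀ l, col (mrg c I J l) = c l) ↔ ∀ l : PS c, (J l).2 = cS c l := by
  constructor
  · intro h l
    have h1 := h l.1
    rw [mrg_S] at h1
    have h2 : some (J l).2 = c l.1 := h1
    unfold cS
    have h3 := Option.some_get l.2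
    exact Option.some_injective _ (h2.trans h3.symm)
  · intro h l
    by_cases hl : (c l).isSome
    · have h1 : mrg c I J l = Sum.inr (J ⟨l, hl⟩) := mrg_S c I J ⟨l, hl⟩
      rw [h1]
      show some (J ⟨l, hl⟩).2 = c l
      rw [h ⟨l, hl⟩]
      exact Option.some_get hl
    · have h1 : mrg c I J l = Sum.inl (I ⟨l, hl⟩) := mrg_T c I J ⟨l, hl⟩
      rw [h1]
      show none = c l
      rw [Option.not_isSome_iff_eq_none] at hl
      exact hl.symm

open Classical in
/-- the part of the tensor with a pattern -/
noncomputable def prt (t : (Fin a → IE r k n) → ℚ) : (Fin a → IE r k n) → ℚ := fun J =>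
  if ∀ l, col (J l) = c l then t J else 0

end pattern

theorem sum_prt (t : (Fin a → IE r k n) → ℚ) : t = ∑ c : Fin a → Option (Fin k), prt c t := by
  classical
  funext J
  rw [Finset.sum_apply, Finset.sum_eq_single fun l => col (J l)]
  · unfold prt
    rw [if_pos fun l => rfl]
  · intro c _ hc
    unfold prt
    rw [if_neg]
    intro h
    exact hc (funext fun l => (h l).symm)
  · intro h
    exact absurd (Finset.mem_univ _) h

/-- operators which respect the colours act on the parts -/
theorem KS_prt {X : Matrix (IE r k n) (IE r k n) ℂ} (hX : ∀ x y, col x ≠ col y → X x y = 0) {t : (Fin a → IE r k n) → ℚ}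
    (ht : KS X t) (c : Fin a → Option (Fin k)) : KS X (prt c t) := by
  classical
  intro J
  by_cases hJ : ∀ l, col (J l) = c l
  · refine Eq.trans ?_ (ht J)
    refine Finset.sum_congr rfl fun l _ => Finset.sum_congr rfl fun b _ => ?_
    by_cases hb : col b = col (J l)
    · congr 2
      unfold prt
      rw [if_pos]
      intro m
      by_cases hm : m = l
      · subst hm
        rw [Function.update_self, hb, hJ]
      · rw [Function.update_of_ne hm, hJ]
    · rw [hX _ _ hb, mul_zero, mul_zero]
  · refine Finset.sum_eq_zero fun l _ => Finset.sum_eq_zero fun b _ => ?_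
    by_cases hb : col b = col (J l)
    · have h1 : prt c t (Function.update J l b) = 0 := by
        unfold prt
        rw [if_neg]
        intro h
        apply hJ
        intro m
        by_cases hm : m = l
        · subst hm
          have h2 := h m
          rw [Function.update_self, hb] at h2
          exact h2
        · have h2 := h m
          rw [Function.update_of_ne hm] at h2
          exact h2
      rw [h1, Rat.cast_zero, zero_mul]
    · rw [hX _ _ hb, mul_zero]

/-- the tensors on the other places annihilated by `hZ` -/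
def MZ (hZ : Matrix (Fin r) (Fin r) ℂ) (S : Type) [Fintype S] [DecidableEq S] : Submodule ℚ ((S → Fin r) → ℚ) where
  carrier := {w | KS hZ w}
  zero_mem' := by
    intro J
    refine Finset.sum_eq_zero fun l _ => Finset.sum_eq_zero fun b _ => ?_
    rw [Pi.zero_apply, Rat.cast_zero, zero_mul]
  add_mem' := by
    intro w w' hw hw' J
    have h1 := hw J
    have h2 := hw' J
    have h3 : ∑ l, ∑ b, (((w + w') (Function.update J l b) : ℚ) : ℂ) * hZ b (J l) =
        (∑ l, ∑ b, (w (Function.update J l b) : ℂ) * hZ b (J l)) + ∑ l, ∑ b, (w' (Function.update J l b) : ℂ) * hZ b (J l) := by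
      rw [← Finset.sum_add_distrib]
      refine Finset.sum_congr rfl fun l _ => ?_
      rw [← Finset.sum_add_distrib]
      refine Finset.sum_congr rfl fun b _ => ?_
      rw [Pi.add_apply, Rat.cast_add, add_mul]
    rw [h3, h1, h2, add_zero]
  smul_mem' := by
    intro q w hw J
    have h1 := hw J
    have h3 : ∑ l, ∑ b, (((q • w) (Function.update J l b) : ℚ) : ℂ) * hZ b (J l) =
        (q : ℂ) * ∑ l, ∑ b, (w (Function.update J l b) : ℂ) * hZ b (J l) := by
      rw [Finset.mul_sum]
      refine Finset.sum_congr rfl fun l _ => ?_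
      rw [Finset.mul_sum]
      refine Finset.sum_congr rfl fun b _ => ?_
      rw [Pi.smul_apply, smul_eq_mul, Rat.cast_mul, mul_assoc]
    rw [h3, h1, mul_zero]

section main

variable {hZ : Matrix (Fin r) (Fin r) ℂ} {Q : Fin k → Matrix (Fin n) (Fin n) ℚ}

/-- sums over the places -/
theorem sum_places {M : Type} [AddCommMonoid M] (c : Fin a → Option (Fin k)) (g : Fin a → M) :
    ∑ l, g l = ∑ l : PS c, g l.1 + ∑ l : PT c, g l.1 := by
  classical
  have h1 := Fintype.sum_subtype_add_sum_subtype (fun l : Fin a => (c l).isSome) g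
  rw [← h1]

/-- the values are annihilated by `hZ` -/
theorem val_mem {t : (Fin a → IE r k n) → ℚ} (ht : KS (fromBlocks hZ 0 0 0) t) (c : Fin a → Option (Fin k))
    (J : PS c → Fin n × Fin k) : (fun I => t (mrg c I J)) ∈ MZ hZ (PT c) := by
  intro I
  have h1 := ht (mrg c I J)
  rw [sum_places c] at h1
  have h2 : ∑ l : PS c, ∑ b, (t (Function.update (mrg c I J) l.1 b) : ℂ) *
      (fromBlocks hZ 0 0 0 : Matrix (IE r k n) (IE r k n) ℂ) b (mrg c I J l.1) = 0 := by
    refine Finset.sum_eq_zero fun l _ => Finset.sum_eq_zero fun b _ => ?_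
    rw [mrg_S]
    rcases b with b | b
    · exact mul_zero _
    · exact mul_zero _
  rw [h2, zero_add] at h1
  refine Eq.trans ?_ h1
  refine Finset.sum_congr rfl fun l _ => ?_
  rw [Fintype.sum_sum_type]
  have h3 : ∑ b : Fin n × Fin k, (t (Function.update (mrg c I J) l.1 (Sum.inr b)) : ℂ) *
      (fromBlocks hZ 0 0 0 : Matrix (IE r k n) (IE r k n) ℂ) (Sum.inr b) (mrg c I J l.1) = 0 := by
    refine Finset.sum_eq_zero fun b _ => ?_
    rw [mrg_T]
    exact mul_zero _
  rw [h3, add_zero]
  refine Finset.sum_congr rfl fun b _ => ?_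
  rw [mrg_upd_T, mrg_T]
  rfl

/-- the operators of the Lie algebra of the form -/
noncomputable def opX (Q : Matrix (Fin n) (Fin n) ℚ) (s : ℚ) (u v : Fin n) : Matrix (Fin n) (Fin n) ℚ := Matrix.of fun b y =>
  (if b = u then Q v y else 0) - s * if b = v then Q u y else 0

theorem opX_skew {Q : Matrix (Fin n) (Fin n) ℚ} {s : ℚ} (hs : s * s = 1) (hQ : ∀ x y, Q x y = s * Q y x) (u v : Fin n) :
    (rc (opX Q s u v))ᵀ * rc Q + rc Q * rc (opX Q s u v) = 0 := by
  have h0 : (opX Q s u v)ᵀ * Q + Q * opX Q s u v = 0 := by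
    ext x y
    rw [Matrix.add_apply, Matrix.mul_apply, Matrix.mul_apply, Matrix.zero_apply]
    have h1 : ∑ b, (opX Q s u v)ᵀ x b * Q b y = Q v x * Q u y - s * (Q u x * Q v y) := by
      have e : ∀ b, (opX Q s u v)ᵀ x b * Q b y = (if b = u then Q v x * Q b y else 0) -
          s * if b = v then Q u x * Q b y else 0 := by
        intro b
        show ((if b = u then Q v x else 0) - s * if b = v then Q u x else 0) * Q b y = _
        split_ifs <;> ring
      rw [Finset.sum_congr rfl fun b _ => e b, Finset.sum_sub_distrib, ← Finset.mul_sum, Finset.sum_ite_eq',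
        Finset.sum_ite_eq', if_pos (Finset.mem_univ _), if_pos (Finset.mem_univ _)]
    have h2 : ∑ b, Q x b * opX Q s u v b y = Q x u * Q v y - s * (Q x v * Q u y) := by
      have e : ∀ b, Q x b * opX Q s u v b y = (if b = u then Q x b * Q v y else 0) -
          s * if b = v then Q x b * Q u y else 0 := by
        intro b
        show Q x b * ((if b = u then Q v y else 0) - s * if b = v then Q u y else 0) = _
        split_ifs <;> ring
      rw [Finset.sum_congr rfl fun b _ => e b, Finset.sum_sub_distrib, ← Finset.mul_sum, Finset.sum_ite_eq',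
        Finset.sum_ite_eq', if_pos (Finset.mem_univ _), if_pos (Finset.mem_univ _)]
    rw [h1, h2, hQ v x, hQ u x]
    linear_combination (-(Q x u * Q v y)) * hs
  rw [← rc_mul]
  have h1 : (rc (opX Q s u v))ᵀ * rc Q = rc ((opX Q s u v)ᵀ * Q) := by
    rw [rc_mul]
    rfl
  have h2 : ∀ A B : Matrix (Fin n) (Fin n) ℚ, rc (A + B) = rc A + rc B := by
    intro A B
    ext i j
    exact map_add (Rat.castHom ℂ) _ _
  rw [h1, ← h2, h0]
  ext i j
  exact map_zero (Rat.castHom ℂ)

/-- the values satisfy the relations of the fundamental theorem -/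
theorem inv_main {s : Fin k → ℤ} {t : (Fin a → IE r k n) → ℚ} (c : Fin a → Option (Fin k)) {j : Fin k} {u v : Fin n}
    (ht : KS (iX r j (rc (opX (Q j) (s j) u v))) t) (I : PT c → Fin r) (J : PS c → Fin n × Fin k) :
    ∑ l : PS c, (blockDiagonal Q (v, j) (J l) * t (mrg c I (Function.update J l (u, j))) -
      ((s j : ℤ) : ℚ) * blockDiagonal Q (u, j) (J l) * t (mrg c I (Function.update J l (v, j)))) = 0 := by
  have h1 := ht (mrg c I J)
  rw [sum_places c] at h1
  have h2 : ∑ l : PT c, ∑ b, (t (Function.update (mrg c I J) l.1 b) : ℂ) *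
      (iX r j (rc (opX (Q j) (s j) u v))) b (mrg c I J l.1) = 0 := by
    refine Finset.sum_eq_zero fun l _ => Finset.sum_eq_zero fun b _ => ?_
    rw [mrg_T]
    rcases b with b | b
    · exact mul_zero _
    · exact mul_zero _
  rw [h2, add_zero] at h1
  have h3 : ∑ l : PS c, ∑ b, (t (Function.update (mrg c I J) l.1 b) : ℂ) *
      (iX r j (rc (opX (Q j) (s j) u v))) b (mrg c I J l.1) =
      ((∑ l : PS c, (blockDiagonal Q (v, j) (J l) * t (mrg c I (Function.update J l (u, j))) -
      ((s j : ℤ) : ℚ) * blockDiagonal Q (u, j) (J l) * t (mrg c I (Function.update J l (v, j)))) : ℚ) : ℂ) := by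
    rw [Rat.cast_sum]
    refine Finset.sum_congr rfl fun l _ => ?_
    rw [Fintype.sum_sum_type]
    have h4 : ∑ b : Fin r, (t (Function.update (mrg c I J) l.1 (Sum.inl b)) : ℂ) *
        (iX r j (rc (opX (Q j) (s j) u v))) (Sum.inl b) (mrg c I J l.1) = 0 := by
      refine Finset.sum_eq_zero fun b _ => ?_
      rw [mrg_S]
      exact mul_zero _
    rw [h4, zero_add]
    have h5 : ∀ b : Fin n × Fin k, (t (Function.update (mrg c I J) l.1 (Sum.inr b)) : ℂ) *
        (iX r j (rc (opX (Q j) (s j) u v))) (Sum.inr b) (mrg c I J l.1) =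
        ((t (mrg c I (Function.update J l b)) * ((if b = (u, j) then blockDiagonal Q (v, j) (J l) else 0) -
          (s j : ℤ) * if b = (v, j) then blockDiagonal Q (u, j) (J l) else 0) : ℚ) : ℂ) := by
      intro b
      rw [mrg_upd_S, mrg_S, Rat.cast_mul]
      congr 1
      rw [iX_apply, fromBlocks_apply₂₂]
      obtain ⟨b, i⟩ := b
      obtain ⟨y, i'⟩ : Fin n × Fin k := J l
      by_cases hi : i = i'
      · subst hi
        rw [blockDiagonal_apply_eq]
        by_cases hj : i = j
        · subst hj
          rw [Pi.single_eq_same, blockDiagonal_apply_eq, blockDiagonal_apply_eq]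
          show ((((if b = u then Q i v y else 0) - (s i : ℤ) * if b = v then Q i u y else 0) : ℚ) : ℂ) = _
          simp only [Prod.mk.injEq, and_true]
        · rw [Pi.single_eq_of_ne hj, if_neg, if_neg, mul_zero, sub_zero, Rat.cast_zero]
          · rfl
          · exact fun h => hj (congrArg Prod.snd h)
          · exact fun h => hj (congrArg Prod.snd h)
      · rw [blockDiagonal_apply_ne _ _ _ hi]
        by_cases hj : j = i'
        · subst hj
          rw [if_neg, if_neg, mul_zero, sub_zero, Rat.cast_zero]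
          · exact fun h => hi (congrArg Prod.snd h)
          · exact fun h => hi (congrArg Prod.snd h)
        · rw [blockDiagonal_apply_ne _ _ _ hj, blockDiagonal_apply_ne _ _ _ hj, ite_self, ite_self, mul_zero, sub_zero,
            Rat.cast_zero]
    rw [Finset.sum_congr rfl fun b _ => h5 b, ← Rat.cast_sum]
    congr 1
    have h6 : ∀ b : Fin n × Fin k, t (mrg c I (Function.update J l b)) * ((if b = (u, j) then blockDiagonal Q (v, j) (J l) else 0) -
          (s j : ℤ) * if b = (v, j) then blockDiagonal Q (u, j) (J l) else 0) =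
        (if b = (u, j) then blockDiagonal Q (v, j) (J l) * t (mrg c I (Function.update J l b)) else 0) -
        if b = (v, j) then ((s j : ℤ) : ℚ) * blockDiagonal Q (u, j) (J l) * t (mrg c I (Function.update J l b)) else 0 := by
      intro b
      split_ifs <;> ring
    rw [Finset.sum_congr rfl fun b _ => h6 b, Finset.sum_sub_distrib, Finset.sum_ite_eq', Finset.sum_ite_eq',
      if_pos (Finset.mem_univ _), if_pos (Finset.mem_univ _)]
  rw [h3] at h1
  exact_mod_cast h1

end main

end Pool.Agent.E8helper3.HG
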