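import Pool.Agent.E8helper3.HG.Nd

/-!
# The Lie algebra is defined over the rational numbers; the orthogonal projection
-/

set_option autoImplicit false
set_option linter.unusedSectionVars false

open Matrix

namespace Pool.Agent.E8helper3.HG

variable {E : Type} [Fintype E] [DecidableEq E]

/-- The annihilator of the tensors is spanned by its rational members. -/
theorem Hd_span {h X : Matrix E E ℂ} (hX : X ∈ Hd h) : ∃ (ι : Type) (S : Finset ι) (c : ι → ℂ) (Y : ι → Matrix E E ℚ),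
    (∀ s, rc (Y s) ∈ Hd h) ∧ X = ∑ s ∈ S, c s • rc (Y s) := by
  classical
  let β := Module.Basis.ofVectorSpace ℚ ℂ
  let S : Finset (Module.Basis.ofVectorSpaceIndex ℚ ℂ) := Finset.univ.biUnion fun i : E => Finset.univ.biUnion fun j : E =>
    (β.repr (X i j)).support
  refine ⟨_, S, fun s => β s, fun s => Matrix.of fun i j => β.repr (X i j) s, fun s a t ht => ?_, ?_⟩
  · rw [kil_iff]
    intro J
    have h1 := (kil_iff X t).1 (hX a t ht) J
    have h2 := congrArg (fun z => β.repr z s) h1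
    have h3 : (β.repr (∑ l, ∑ b, (t (Function.update J l b) : ℂ) * X b (J l))) s =
        ∑ l, ∑ b, t (Function.update J l b) * (β.repr (X b (J l)) s) := by
      rw [map_sum, Finsupp.finsetSum_apply]
      refine Finset.sum_congr rfl fun l _ => ?_
      rw [map_sum, Finsupp.finsetSum_apply]
      refine Finset.sum_congr rfl fun b _ => ?_
      have h4 : (t (Function.update J l b) : ℂ) * X b (J l) = t (Function.update J l b) • X b (J l) := by
        rw [Algebra.smul_def]
        rfl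
      rw [h4, map_smul, Finsupp.smul_apply, smul_eq_mul]
    have h4 : ∑ l, ∑ b, t (Function.update J l b) * (β.repr (X b (J l)) s) = 0 := by
      rw [← h3]
      refine h2.trans ?_
      show (β.repr 0) s = 0
      rw [map_zero, Finsupp.zero_apply]
    have h5 : ((∑ l, ∑ b, t (Function.update J l b) * (β.repr (X b (J l)) s) : ℚ) : ℂ) = 0 := by
      rw [h4, Rat.cast_zero]
    rw [Rat.cast_sum] at h5
    refine Eq.trans ?_ h5
    refine Finset.sum_congr rfl fun l _ => ?_
    rw [Rat.cast_sum]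
    refine Finset.sum_congr rfl fun b _ => ?_
    rw [Rat.cast_mul]
    rfl
  · ext i j
    rw [Matrix.sum_apply]
    have h1 : ∑ s ∈ S, (β s • rc (Matrix.of fun i j => β.repr (X i j) s)) i j = ∑ s ∈ S, β.repr (X i j) s • β s := by
      refine Finset.sum_congr rfl fun s _ => ?_
      rw [Matrix.smul_apply, smul_eq_mul, Algebra.smul_def, mul_comm]
      rfl
    rw [h1]
    have h2 := β.linearCombination_repr (X i j)
    rw [Finsupp.linearCombination_apply, Finsupp.sum] at h2
    conv_lhs => rw [← h2]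
    refine Finset.sum_subset ?_ ?_
    · intro s hs
      exact Finset.mem_biUnion.2 ⟨i, Finset.mem_univ _, Finset.mem_biUnion.2 ⟨j, Finset.mem_univ _, hs⟩⟩
    · intro s _ hs
      rw [Finsupp.notMem_support_iff.1 hs, zero_smul]

/-- the rational members -/
def HQ (h : Matrix E E ℂ) : Submodule ℚ (Matrix E E ℚ) where
  carrier := {Y | rc Y ∈ Hd h}
  zero_mem' := by
    have h1 : rc (0 : Matrix E E ℚ) = 0 := by
      ext i j
      exact map_zero (Rat.castHom ℂ)
    show rc (0 : Matrix E E ℚ) ∈ Hd h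
    rw [h1]
    exact (Hd h).zero_mem
  add_mem' := by
    intro X Y hX hY
    have h1 : rc (X + Y) = rc X + rc Y := by
      ext i j
      exact map_add (Rat.castHom ℂ) _ _
    show rc (X + Y) ∈ Hd h
    rw [h1]
    exact (Hd h).add_mem hX hY
  smul_mem' := by
    intro c X hX
    have h1 : rc (c • X) = (c : ℂ) • rc X := by
      ext i j
      exact map_mul (Rat.castHom ℂ) _ _
    show rc (c • X) ∈ Hd h
    rw [h1]
    exact (Hd h).smul_mem _ hX

/-- the trace form -/
def tf (E : Type) [Fintype E] [DecidableEq E] : LinearMap.BilinForm ℚ (Matrix E E ℚ) :=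
  LinearMap.mk₂ ℚ (fun X Y => trace (X * Y)) (fun X X' Y => by rw [Matrix.add_mul, trace_add])
    (fun c X Y => by rw [Matrix.smul_mul, trace_smul]) (fun X Y Y' => by rw [Matrix.mul_add, trace_add])
    (fun c X Y => by rw [Matrix.mul_smul, trace_smul])

theorem tf_apply (X Y : Matrix E E ℚ) : tf E X Y = trace (X * Y) := rfl

theorem rc_trace (X Y : Matrix E E ℚ) : trace (rc X * rc Y) = ((trace (X * Y) : ℚ) : ℂ) := by
  rw [← rc_mul]
  show ∑ i, _ = _
  rw [Matrix.trace, Rat.cast_sum]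
  rfl

theorem rc_inj {X : Matrix E E ℚ} (h : rc X = 0) : X = 0 := by
  ext i j
  have h1 := congrFun (congrFun h i) j
  have h2 : ((X i j : ℚ) : ℂ) = 0 := h1
  exact_mod_cast h2

variable {h : Matrix E E ℂ} {Q : Matrix E E ℚ}

/-- a rational matrix orthogonal to the rational members is orthogonal to all members -/
theorem orth_all {Y : Matrix E E ℂ} (hY : ∀ Z : Matrix E E ℚ, rc Z ∈ Hd h → trace (Y * rc Z) = 0) {Z : Matrix E E ℂ}
    (hZ : Z ∈ Hd h) : trace (Y * Z) = 0 := by
  obtain ⟨ι, S, c, V, h1, rfl⟩ := Hd_span hZ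
  rw [Matrix.mul_sum, trace_sum]
  refine Finset.sum_eq_zero fun s _ => ?_
  rw [Matrix.mul_smul, trace_smul, hY _ (h1 s), smul_zero]

theorem tf_refl : (tf E).IsRefl := by
  intro X Y hXY
  rw [tf_apply, trace_mul_comm]
  exact hXY

theorem HQ_compl (hs : IsHS h Q) : IsCompl (HQ h) ((tf E).orthogonal (HQ h)) := by
  refine LinearMap.BilinForm.isCompl_orthogonal_of_restrict_nondegenerate tf_refl ?_
  have key : ∀ Y : HQ h, (∀ Z : HQ h, trace ((Y : Matrix E E ℚ) * (Z : Matrix E E ℚ)) = 0) → Y = 0 := by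
    intro Y hY
    refine Subtype.ext (rc_inj (trace_nondeg hs Y.2 fun Z hZ => orth_all (fun Z' hZ' => ?_) hZ))
    rw [rc_trace, hY ⟨Z', hZ'⟩, Rat.cast_zero]
  refine ⟨fun Y hY => key Y fun Z => hY Z, fun Y hY => key Y fun Z => ?_⟩
  rw [trace_mul_comm]
  exact hY Z

/-- the rational projection -/
theorem exists_proj (hs : IsHS h Q) : ∃ F : Matrix E E ℚ →ₗ[ℚ] Matrix E E ℚ, (∀ Y, rc (F Y) ∈ Hd h) ∧
    ∀ Y Z, rc Z ∈ Hd h → trace ((Y - F Y) * Z) = 0 := by
  have hc := HQ_compl hs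
  refine ⟨(HQ h).projection _ hc, fun Y => Submodule.projection_apply_mem hc Y, fun Y Z hZ => ?_⟩
  have h1 : Y - (HQ h).projection _ hc Y ∈ (tf E).orthogonal (HQ h) := by
    have h2 := Submodule.projection_apply_mem hc.symm Y
    have h3 : Y - (HQ h).projection _ hc Y = ((tf E).orthogonal (HQ h)).projection _ hc.symm Y := by
      rw [sub_eq_iff_eq_add]
      have h4 := Submodule.projection_add_projection_eq_self hc Y
      rw [add_comm]
      exact h4.symm
    rw [h3]
    exact h2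
  have h2 := h1 Z hZ
  rw [trace_mul_comm]
  exact h2

/-- the complexification of a linear map -/
noncomputable def PC (F : Matrix E E ℚ →ₗ[ℚ] Matrix E E ℚ) : Matrix E E ℂ →ₗ[ℂ] Matrix E E ℂ where
  toFun Y := ∑ i, ∑ j, Y i j • rc (F (Matrix.single i j 1))
  map_add' Y Y' := by
    rw [← Finset.sum_add_distrib]
    refine Finset.sum_congr rfl fun i _ => ?_
    rw [← Finset.sum_add_distrib]
    refine Finset.sum_congr rfl fun j _ => ?_
    rw [Matrix.add_apply, add_smul]
  map_smul' c Y := by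
    rw [Finset.smul_sum]
    refine Finset.sum_congr rfl fun i _ => ?_
    rw [Finset.smul_sum]
    refine Finset.sum_congr rfl fun j _ => ?_
    rw [Matrix.smul_apply, smul_assoc]
    rfl

theorem PC_apply (F : Matrix E E ℚ →ₗ[ℚ] Matrix E E ℚ) (Y : Matrix E E ℂ) :
    PC F Y = ∑ i, ∑ j, Y i j • rc (F (Matrix.single i j 1)) := rfl

theorem rc_sum {ι : Type} (S : Finset ι) (f : ι → Matrix E E ℚ) : rc (∑ s ∈ S, f s) = ∑ s ∈ S, rc (f s) :=
  map_sum (Rat.castHom ℂ).mapMatrix f S

theorem rc_smul (c : ℚ) (Y : Matrix E E ℚ) : rc (c • Y) = (c : ℂ) • rc Y := by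
  ext i j
  exact map_mul (Rat.castHom ℂ) _ _

theorem PC_rc (F : Matrix E E ℚ →ₗ[ℚ] Matrix E E ℚ) (Y : Matrix E E ℚ) : PC F (rc Y) = rc (F Y) := by
  have h1 : F Y = ∑ i, ∑ j, Y i j • F (Matrix.single i j 1) := by
    conv_lhs => rw [Matrix.matrix_eq_sum_single Y, map_sum]
    refine Finset.sum_congr rfl fun i _ => ?_
    rw [map_sum]
    refine Finset.sum_congr rfl fun j _ => ?_
    rw [← map_smul, Matrix.smul_single, smul_eq_mul, mul_one]
  rw [h1, PC_apply, rc_sum]
  refine Finset.sum_congr rfl fun i _ => ?_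
  rw [rc_sum]
  refine Finset.sum_congr rfl fun j _ => ?_
  rw [rc_smul]
  rfl

section

variable {F : Matrix E E ℚ →ₗ[ℚ] Matrix E E ℚ}

theorem PC_mem (h1 : ∀ Y, rc (F Y) ∈ Hd h) (Y : Matrix E E ℂ) : PC F Y ∈ Hd h := by
  rw [PC_apply]
  exact (Hd h).sum_mem fun i _ => (Hd h).sum_mem fun j _ => (Hd h).smul_mem _ (h1 _)

theorem rc_single (i j : E) : rc (Matrix.single i j (1 : ℚ)) = Matrix.single i j (1 : ℂ) := by
  ext a b
  show (Rat.castHom ℂ) (Matrix.single i j (1 : ℚ) a b) = _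
  rw [Matrix.single_apply, Matrix.single_apply]
  split_ifs
  · exact map_one _
  · exact map_zero _

theorem PC_orth (h2 : ∀ Y Z, rc Z ∈ Hd h → trace ((Y - F Y) * Z) = 0) (Y : Matrix E E ℂ) {Z : Matrix E E ℂ} (hZ : Z ∈ Hd h) :
    trace ((Y - PC F Y) * Z) = 0 := by
  refine orth_all (fun Z' hZ' => ?_) hZ
  have h3 : Y - PC F Y = ∑ i, ∑ j, Y i j • rc (Matrix.single i j 1 - F (Matrix.single i j 1)) := by
    have h4 : ∀ X X' : Matrix E E ℚ, rc (X - X') = rc X - rc X' := by
      intro X X'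
      ext i j
      exact map_sub (Rat.castHom ℂ) _ _
    have h5 : Y = ∑ i, ∑ j, Y i j • rc (Matrix.single i j 1) := by
      conv_lhs => rw [Matrix.matrix_eq_sum_single Y]
      refine Finset.sum_congr rfl fun i _ => Finset.sum_congr rfl fun j _ => ?_
      rw [rc_single, Matrix.smul_single, smul_eq_mul, mul_one]
    have h6 : Y - PC F Y = (∑ i, ∑ j, Y i j • rc (Matrix.single i j 1)) - PC F Y := congrArg (fun M => M - PC F Y) h5
    rw [h6, PC_apply, ← Finset.sum_sub_distrib]
    refine Finset.sum_congr rfl fun i _ => ?_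
    rw [← Finset.sum_sub_distrib]
    refine Finset.sum_congr rfl fun j _ => ?_
    rw [h4, smul_sub]
  rw [h3, Matrix.sum_mul, trace_sum]
  refine Finset.sum_eq_zero fun i _ => ?_
  rw [Matrix.sum_mul, trace_sum]
  refine Finset.sum_eq_zero fun j _ => ?_
  rw [Matrix.smul_mul, trace_smul, rc_trace, h2 _ _ hZ', Rat.cast_zero, smul_zero]

/-- the projection is characterised by its properties -/
theorem PC_char (hs : IsHS h Q) (h1 : ∀ Y, rc (F Y) ∈ Hd h) (h2 : ∀ Y Z, rc Z ∈ Hd h → trace ((Y - F Y) * Z) = 0)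
    {Y X : Matrix E E ℂ} (hX : X ∈ Hd h) (hYX : ∀ Z ∈ Hd h, trace ((Y - X) * Z) = 0) : PC F Y = X := by
  have h3 : PC F Y - X = 0 := by
    refine trace_nondeg hs ((Hd h).sub_mem (PC_mem h1 Y) hX) fun Z hZ => ?_
    have h4 : PC F Y - X = (Y - X) - (Y - PC F Y) := by abel
    rw [h4, Matrix.sub_mul, trace_sub, hYX Z hZ, PC_orth h2 Y hZ, sub_zero]
  exact sub_eq_zero.1 h3

theorem PC_self (hs : IsHS h Q) (h1 : ∀ Y, rc (F Y) ∈ Hd h) (h2 : ∀ Y Z, rc Z ∈ Hd h → trace ((Y - F Y) * Z) = 0)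
    {X : Matrix E E ℂ} (hX : X ∈ Hd h) : PC F X = X :=
  PC_char hs h1 h2 hX fun Z _ => by rw [sub_self, Matrix.zero_mul, trace_zero]

/-- the projection commutes with the members -/
theorem PC_comm (hs : IsHS h Q) (h1 : ∀ Y, rc (F Y) ∈ Hd h) (h2 : ∀ Y Z, rc Z ∈ Hd h → trace ((Y - F Y) * Z) = 0)
    {y : Matrix E E ℂ} (hy : y ∈ Hd h) (M : Matrix E E ℂ) : PC F (y * M - M * y) = y * PC F M - PC F M * y := by
  refine PC_char hs h1 h2 (Hd_lie hy (PC_mem h1 M)) fun Z hZ => ?_
  have h3 : y * M - M * y - (y * PC F M - PC F M * y) = y * (M - PC F M) - (M - PC F M) * y := by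
    rw [Matrix.mul_sub, Matrix.sub_mul]
    abel
  have h4 : ∀ A : Matrix E E ℂ, trace ((y * A - A * y) * Z) = trace (A * (Z * y - y * Z)) := by
    intro A
    rw [Matrix.sub_mul, trace_sub, Matrix.mul_sub, trace_sub, Matrix.mul_assoc, trace_mul_comm, Matrix.mul_assoc,
      Matrix.mul_assoc]
  rw [h3, h4]
  exact PC_orth h2 M (Hd_lie hZ hy)

end

end Pool.Agent.E8helper3.HG
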