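import Pool.Agent.E8helper3.HG.Rt

/-!
# A Hodge tensor of degree four whose stabiliser normalises the Lie algebra
-/

set_option autoImplicit false
set_option linter.unusedSectionVars false

open Matrix

namespace Pool.Agent.E8helper3.HG

variable {E : Type} [Fintype E] [DecidableEq E] {h : Matrix E E ℂ} {Q : Matrix E E ℚ}

/-- the form of degree four -/
noncomputable def t4 (Q : Matrix E E ℚ) (F : Matrix E E ℚ →ₗ[ℚ] Matrix E E ℚ) (I : Fin 4 → E) : ℚ :=
  (Q * F (Matrix.single (I 1) (I 0) 1 * Q)) (I 2) (I 3)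

/-- the form as a function of its first two arguments -/
noncomputable def TL (Q : Matrix E E ℚ) (F : Matrix E E ℚ →ₗ[ℚ] Matrix E E ℚ) : Matrix E E ℂ →ₗ[ℂ] Matrix E E ℂ where
  toFun M := rc Q * PC F (M * rc Q)
  map_add' M M' := by rw [Matrix.add_mul, map_add, Matrix.mul_add]
  map_smul' c M := by
    rw [Matrix.smul_mul, map_smul, Matrix.mul_smul]
    rfl

theorem TL_apply (F : Matrix E E ℚ →ₗ[ℚ] Matrix E E ℚ) (M : Matrix E E ℂ) : TL Q F M = rc Q * PC F (M * rc Q) := rfl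

theorem t4_eq (F : Matrix E E ℚ →ₗ[ℚ] Matrix E E ℚ) (I : Fin 4 → E) :
    ((t4 Q F I : ℚ) : ℂ) = TL Q F (Matrix.single (I 1) (I 0) 1) (I 2) (I 3) := by
  rw [TL_apply, ← rc_single, ← rc_mul, PC_rc, ← rc_mul]
  rfl

theorem kil_t4_aux (F : Matrix E E ℚ →ₗ[ℚ] Matrix E E ℚ) (y : Matrix E E ℂ) (J : Fin 4 → E) :
    ∑ l, ∑ b, ((t4 Q F (Function.update J l b) : ℚ) : ℂ) * y b (J l) =
      (TL Q F (Matrix.single (J 1) (J 0) 1 * yᵀ) + TL Q F (y * Matrix.single (J 1) (J 0) 1) +
        yᵀ * TL Q F (Matrix.single (J 1) (J 0) 1) + TL Q F (Matrix.single (J 1) (J 0) 1) * y) (J 2) (J 3) := by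
  rw [Fin.sum_univ_four, Matrix.add_apply, Matrix.add_apply, Matrix.add_apply]
  congr 1
  congr 1
  congr 1
  · -- first argument
    have h1 : Matrix.single (J 1) (J 0) 1 * yᵀ = ∑ b, y b (J 0) • Matrix.single (J 1) b (1 : ℂ) := by
      ext i j
      rw [Matrix.sum_apply]
      by_cases hi : i = J 1
      · subst hi
        rw [Matrix.single_mul_apply_same, one_mul, transpose_apply, Finset.sum_eq_single j]
        · rw [Matrix.smul_apply, Matrix.single_apply_same, smul_eq_mul, mul_one]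
        · intro b _ hb
          rw [Matrix.smul_apply, Matrix.single_apply_of_col_ne _ _ hb, smul_zero]
        · intro h
          exact absurd (Finset.mem_univ _) h
      · rw [Matrix.single_mul_apply_of_ne _ _ _ _ _ hi]
        refine (Finset.sum_eq_zero fun b _ => ?_).symm
        rw [Matrix.smul_apply, Matrix.single_apply_of_row_ne (Ne.symm hi), smul_zero]
    rw [h1, map_sum, Matrix.sum_apply]
    refine Finset.sum_congr rfl fun b _ => ?_
    rw [t4_eq, map_smul, Matrix.smul_apply, smul_eq_mul, mul_comm]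
    rfl
  · have h1 : y * Matrix.single (J 1) (J 0) 1 = ∑ b, y b (J 1) • Matrix.single b (J 0) (1 : ℂ) := by
      ext i j
      rw [Matrix.sum_apply]
      by_cases hj : j = J 0
      · subst hj
        rw [Matrix.mul_single_apply_same, mul_one, Finset.sum_eq_single i]
        · rw [Matrix.smul_apply, Matrix.single_apply_same, smul_eq_mul, mul_one]
        · intro b _ hb
          rw [Matrix.smul_apply, Matrix.single_apply_of_row_ne hb, smul_zero]
        · intro h
          exact absurd (Finset.mem_univ _) h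
      · rw [Matrix.mul_single_apply_of_ne _ _ _ _ _ hj]
        refine (Finset.sum_eq_zero fun b _ => ?_).symm
        rw [Matrix.smul_apply, Matrix.single_apply_of_col_ne _ _ (Ne.symm hj), smul_zero]
    rw [h1, map_sum, Matrix.sum_apply]
    refine Finset.sum_congr rfl fun b _ => ?_
    rw [t4_eq, map_smul, Matrix.smul_apply, smul_eq_mul, mul_comm]
    rfl
  · rw [Matrix.mul_apply]
    refine Finset.sum_congr rfl fun b _ => ?_
    rw [t4_eq, mul_comm]
    rfl
  · rw [Matrix.mul_apply]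
    refine Finset.sum_congr rfl fun b _ => ?_
    rw [t4_eq]
    rfl

/-- the form is killed if the operator is skew and commutes with the projection -/
theorem kil_t4 {F : Matrix E E ℚ →ₗ[ℚ] Matrix E E ℚ} {y : Matrix E E ℂ} (hy : yᵀ * rc Q + rc Q * y = 0)
    (hc : ∀ M, PC F (y * M - M * y) = y * PC F M - PC F M * y) : Kil y (t4 Q F) := by
  rw [kil_iff]
  intro J
  rw [kil_t4_aux]
  set M := Matrix.single (J 1) (J 0) (1 : ℂ) with hM
  have h0 : yᵀ * rc Q = -(rc Q * y) := eq_neg_of_add_eq_zero_left hy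
  have h1 : TL Q F (M * yᵀ) + TL Q F (y * M) + yᵀ * TL Q F M + TL Q F M * y = 0 := by
    rw [TL_apply, TL_apply, TL_apply, Matrix.mul_assoc M, h0, ← Matrix.mul_assoc yᵀ, h0]
    have h2 := hc (M * rc Q)
    have h3 : y * (M * rc Q) - M * rc Q * y = y * M * rc Q + M * -(rc Q * y) := by
      simp only [Matrix.mul_assoc, Matrix.mul_neg, sub_eq_add_neg]
    rw [h3, map_add] at h2
    have h4 : rc Q * (PC F (y * M * rc Q) + PC F (M * -(rc Q * y))) =
        rc Q * (y * PC F (M * rc Q) - PC F (M * rc Q) * y) := by rw [h2]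
    rw [Matrix.mul_add, Matrix.mul_sub] at h4
    rw [add_comm (rc Q * PC F (M * -(rc Q * y))), h4]
    simp only [Matrix.mul_assoc, Matrix.neg_mul]
    abel
  rw [h1]
  rfl

/-- the converse -/
theorem comm_of_kil {F : Matrix E E ℚ →ₗ[ℚ] Matrix E E ℚ} {y : Matrix E E ℂ} (hQ : IsUnit (rc Q))
    (hy : yᵀ * rc Q + rc Q * y = 0) (hk : Kil y (t4 Q F)) (M : Matrix E E ℂ) :
    PC F (y * M - M * y) = y * PC F M - PC F M * y := by
  rw [kil_iff] at hk
  have h0 : yᵀ * rc Q = -(rc Q * y) := eq_neg_of_add_eq_zero_left hy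
  have h1 : ∀ M, TL Q F (M * yᵀ) + TL Q F (y * M) + yᵀ * TL Q F M + TL Q F M * y = 0 := by
    intro M
    rw [Matrix.matrix_eq_sum_single M]
    have h2 : ∀ i j : E, TL Q F (Matrix.single i j 1 * yᵀ) + TL Q F (y * Matrix.single i j 1) +
        yᵀ * TL Q F (Matrix.single i j 1) + TL Q F (Matrix.single i j 1) * y = 0 := by
      intro i j
      ext a b
      have h3 := hk ![j, i, a, b]
      rw [kil_t4_aux] at h3
      exact h3
    let L : Matrix E E ℂ →ₗ[ℂ] Matrix E E ℂ :=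
      (TL Q F) ∘ₗ (LinearMap.mulRight ℂ yᵀ) + (TL Q F) ∘ₗ (LinearMap.mulLeft ℂ y) + (LinearMap.mulLeft ℂ yᵀ) ∘ₗ (TL Q F) +
        (LinearMap.mulRight ℂ y) ∘ₗ (TL Q F)
    have h4 : ∀ M, L M = TL Q F (M * yᵀ) + TL Q F (y * M) + yᵀ * TL Q F M + TL Q F M * y := fun M => rfl
    rw [← h4, map_sum]
    refine Finset.sum_eq_zero fun i _ => ?_
    rw [map_sum]
    refine Finset.sum_eq_zero fun j _ => ?_
    have h5 : Matrix.single i j (M i j) = M i j • Matrix.single i j (1 : ℂ) := by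
      rw [Matrix.smul_single, smul_eq_mul, mul_one]
    rw [h5, map_smul, h4, h2, smul_zero]
  have hQd := (Matrix.isUnit_iff_isUnit_det _).1 hQ
  have hQ1 : rc Q * (rc Q)⁻¹ = 1 := Matrix.mul_nonsing_inv _ hQd
  have hQ2 : (rc Q)⁻¹ * rc Q = 1 := Matrix.nonsing_inv_mul _ hQd
  have h2 := h1 (M * (rc Q)⁻¹)
  rw [TL_apply, TL_apply, TL_apply, Matrix.mul_assoc (M * (rc Q)⁻¹), h0, ← Matrix.mul_assoc yᵀ, h0] at h2
  have e1 : M * (rc Q)⁻¹ * -(rc Q * y) = -(M * y) := by
    rw [Matrix.mul_neg, Matrix.mul_assoc, ← Matrix.mul_assoc _ (rc Q), hQ2, Matrix.one_mul]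
  have e2 : y * (M * (rc Q)⁻¹) * rc Q = y * M := by
    rw [Matrix.mul_assoc, Matrix.mul_assoc M, hQ2, Matrix.mul_one]
  have e3 : M * (rc Q)⁻¹ * rc Q = M := by rw [Matrix.mul_assoc, hQ2, Matrix.mul_one]
  rw [e1, e2, e3] at h2
  have h3 : rc Q * (PC F (y * M - M * y) - (y * PC F M - PC F M * y)) = 0 := by
    rw [← h2, sub_eq_add_neg (y * M), map_add]
    simp only [Matrix.mul_sub, Matrix.mul_add, Matrix.neg_mul, Matrix.mul_assoc]
    abel
  have h4 : PC F (y * M - M * y) - (y * PC F M - PC F M * y) = 0 := by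
    calc PC F (y * M - M * y) - (y * PC F M - PC F M * y) = ((rc Q)⁻¹ * rc Q) * (PC F (y * M - M * y) -
        (y * PC F M - PC F M * y)) := by rw [hQ2, Matrix.one_mul]
      _ = (rc Q)⁻¹ * (rc Q * (PC F (y * M - M * y) - (y * PC F M - PC F M * y))) := Matrix.mul_assoc _ _ _
      _ = 0 := by rw [h3, Matrix.mul_zero]
  exact sub_eq_zero.1 h4

open scoped ComplexOrder in
theorem Q_unit (hs : IsHS h Q) : IsUnit (rc Q) := by
  obtain ⟨lam, U, hU, hUh⟩ := exists_eigen hs.diag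
  have h1 := (posDef hs hU hUh).isUnit
  rw [Matrix.isUnit_iff_isUnit_det, det_mul, IsUnit.mul_iff, det_transpose] at h1
  exact (Matrix.isUnit_iff_isUnit_det _).2 h1.1

/-- **Two Hodge tensors control the normaliser.** -/
theorem exists_t4 (hs : IsHS h Q) : ∃ t : (Fin 4 → E) → ℚ, Kil h t ∧ ∀ y : Matrix E E ℂ, Kil y (t2 Q) → Kil y t →
    ∀ X ∈ Hd h, y * X - X * y ∈ Hd h := by
  obtain ⟨F, h1, h2⟩ := exists_proj hs
  refine ⟨t4 Q F, kil_t4 hs.skew (PC_comm hs h1 h2 (self_mem h)), fun y hy2 hy4 X hX => ?_⟩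
  have h3 := comm_of_kil (Q_unit hs) ((kil_t2 y).1 hy2) hy4 X
  rw [PC_self hs h1 h2 hX] at h3
  rw [← h3]
  exact PC_mem h1 _

end Pool.Agent.E8helper3.HG
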