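import Pool.Agent.E8helper3.HG.T4

/-!
# Transfer: relations of bounded degree between the periods move the Hodge structure
-/

set_option autoImplicit false
set_option linter.unusedSectionVars false

open Matrix

namespace Pool.Agent.E8helper3.HG

variable {E : Type} [Fintype E] [DecidableEq E] {h : Matrix E E ℂ} {Q : Matrix E E ℚ}

theorem mem_span_cols {B : Matrix E E ℂ} {e : E → ℤ} {s : ℤ} {v : E → ℂ}
    (hv : v ∈ Submodule.span ℂ {v | ∃ i, s ≤ e i ∧ v = B.col i}) :
    ∃ c : E → ℂ, (∀ i, ¬ s ≤ e i → c i = 0) ∧ v = ∑ i, c i • B.col i := by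
  induction hv using Submodule.span_induction with
  | mem v hv =>
    obtain ⟨i, hi, rfl⟩ := hv
    refine ⟨Pi.single i 1, fun j hj => ?_, ?_⟩
    · refine Pi.single_eq_of_ne ?_ _
      rintro rfl
      exact hj hi
    · rw [Finset.sum_eq_single i]
      · rw [Pi.single_eq_same, one_smul]
      · intro j _ hj
        rw [Pi.single_eq_of_ne hj, zero_smul]
      · intro h
        exact absurd (Finset.mem_univ _) h
  | zero => exact ⟨0, fun _ _ => rfl, by simp⟩
  | add v w _ _ hv hw =>
    obtain ⟨c, h1, rfl⟩ := hv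
    obtain ⟨d, h2, rfl⟩ := hw
    refine ⟨c + d, fun i hi => by rw [Pi.add_apply, h1 i hi, h2 i hi, add_zero], ?_⟩
    rw [← Finset.sum_add_distrib]
    refine Finset.sum_congr rfl fun i _ => ?_
    rw [Pi.add_apply, add_smul]
  | smul a v _ hv =>
    obtain ⟨c, h1, rfl⟩ := hv
    refine ⟨a • c, fun i hi => by rw [Pi.smul_apply, h1 i hi, smul_zero], ?_⟩
    rw [Finset.smul_sum]
    refine Finset.sum_congr rfl fun i _ => ?_
    rw [Pi.smul_apply, smul_assoc]

/-- a form which vanishes on the tuples of columns of positive level vanishes on the steps of the filtration -/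
theorem van_span {a : ℕ} {G : MultilinearMap ℂ (fun _ : Fin a => E → ℂ) ℂ} {B : Matrix E E ℂ} {e : E → ℤ}
    (hG : ∀ J : Fin a → E, 0 < ∑ l, e (J l) → G (fun l => B.col (J l)) = 0) {s : Fin a → ℤ} (hs : 0 < ∑ l, s l)
    {v : Fin a → E → ℂ} (hv : ∀ l, v l ∈ Submodule.span ℂ {v | ∃ i, s l ≤ e i ∧ v = B.col i}) : G v = 0 := by
  choose c h1 h2 using fun l => mem_span_cols (hv l)
  have h3 : v = fun l => ∑ i, c l i • B.col i := funext h2
  rw [h3, MultilinearMap.map_sum]
  refine Finset.sum_eq_zero fun J _ => ?_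
  rw [MultilinearMap.map_smul_univ (f := G) (c := fun l => c l (J l)) (m := fun l => B.col (J l))]
  by_cases hJ : ∀ l, s l ≤ e (J l)
  · rw [hG J (lt_of_lt_of_le hs (Finset.sum_le_sum fun l _ => hJ l)), smul_zero]
  · push Not at hJ
    obtain ⟨l, hl⟩ := hJ
    rw [Finset.prod_eq_zero (Finset.mem_univ l) (h1 l (J l) (not_le.2 hl)), zero_smul]

theorem eig_mem {s : ℤ} {v : E → ℂ} (hv : h *ᵥ v = (s : ℂ) • v) :
    v ∈ ⨆ r : {r : ℤ // s ≤ r}, Module.End.eigenspace (Matrix.mulVecLin h) ((r : ℤ) : ℂ) := by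
  refine Submodule.mem_iSup_of_mem ⟨s, le_refl s⟩ ?_
  rw [Module.End.mem_eigenspace_iff]
  exact hv

/-- the Hodge filtration of `h` is spanned by the columns of `B` with levels `e` -/
def Adapted (h B : Matrix E E ℂ) (e : E → ℤ) : Prop :=
  ∀ s : ℤ, Submodule.span ℂ {v | ∃ i, s ≤ e i ∧ v = B.col i} =
    ⨆ r : {r : ℤ // s ≤ r}, Module.End.eigenspace (Matrix.mulVecLin h) ((r : ℤ) : ℂ)

/-- the eigenvectors of `h` are in the span of the columns of `B` of their level -/
def A1 (h B : Matrix E E ℂ) (e : E → ℤ) : Prop :=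
  ∀ (s : ℤ) (v : E → ℂ), h *ᵥ v = (s : ℂ) • v → v ∈ Submodule.span ℂ {v | ∃ i, s ≤ e i ∧ v = B.col i}

/-- the columns of `B` are sums of eigenvectors of at least their level -/
def A2 (h B : Matrix E E ℂ) (e : E → ℤ) : Prop :=
  ∀ i, B.col i ∈ ⨆ r : {r : ℤ // e i ≤ r}, Module.End.eigenspace (Matrix.mulVecLin h) ((r : ℤ) : ℂ)

theorem Adapted.a1 {B : Matrix E E ℂ} {e : E → ℤ} (hB : Adapted h B e) : A1 h B e := by
  intro s v hv
  rw [hB s]
  exact eig_mem hv

theorem Adapted.a2 {B : Matrix E E ℂ} {e : E → ℤ} (hB : Adapted h B e) : A2 h B e := by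
  intro i
  rw [← hB (e i)]
  exact Submodule.subset_span ⟨i, le_refl _, rfl⟩

section

variable {lam : E → ℤ} {U : Matrix E E ℂ}

theorem A1_U (hU : IsUnit U) (hUh : h * U = U * diagonal fun i => (lam i : ℂ)) : A1 h U lam := by
  intro s v hv
  have hdet := (Matrix.isUnit_iff_isUnit_det _).1 hU
  have h1 : U⁻¹ * U = 1 := Matrix.nonsing_inv_mul _ hdet
  set c : E → ℂ := U⁻¹ *ᵥ v with hc
  have hv' : v = U *ᵥ c := by
    rw [hc, mulVec_mulVec, Matrix.mul_nonsing_inv _ hdet, one_mulVec]
  have h2 : (diagonal fun i => (lam i : ℂ)) *ᵥ c = (s : ℂ) • c := by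
    have h3 : U *ᵥ ((diagonal fun i => (lam i : ℂ)) *ᵥ c) = U *ᵥ ((s : ℂ) • c) := by
      rw [mulVec_mulVec, ← hUh, ← mulVec_mulVec, ← hv', hv, mulVec_smul, ← hv']
    have h4 := congrArg (fun w => U⁻¹ *ᵥ w) h3
    simp only [mulVec_mulVec, ← Matrix.mul_assoc, h1, Matrix.one_mul, one_mulVec] at h4
    exact h4
  have h3 : v = ∑ i, c i • U.col i := by
    conv_lhs => rw [hv']
    funext a
    rw [Finset.sum_apply]
    show ∑ i, U a i * c i = ∑ i, c i * U a i
    exact Finset.sum_congr rfl fun i _ => mul_comm _ _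
  rw [h3]
  refine Submodule.sum_mem _ fun i _ => ?_
  by_cases hi : s ≤ lam i
  · exact Submodule.smul_mem _ _ (Submodule.subset_span ⟨i, hi, rfl⟩)
  · have h4 := congrFun h2 i
    rw [mulVec_diagonal, Pi.smul_apply, smul_eq_mul] at h4
    have h5 : ((lam i : ℂ) - s) * c i = 0 := by
      rw [sub_mul, h4, sub_self]
    rcases mul_eq_zero.1 h5 with h6 | h6
    · exfalso
      apply hi
      have h7 : (lam i : ℂ) = s := sub_eq_zero.1 h6
      have h8 : lam i = s := by exact_mod_cast h7
      exact h8.ge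
    · rw [h6, zero_smul]
      exact Submodule.zero_mem _

theorem A2_U (hUh : h * U = U * diagonal fun i => (lam i : ℂ)) : A2 h U lam := fun i => eig_mem (eig_col hUh i)

end

/-- a Hodge tensor vanishes on the tuples of columns of positive level -/
theorem van_cols (hs : IsHS h Q) {B : Matrix E E ℂ} {e : E → ℤ} (hB : A2 h B e) {a : ℕ} {t : (Fin a → E) → ℚ} (ht : Kil h t)
    {J : Fin a → E} (hJ : 0 < ∑ l, e (J l)) : ev t (fun l => B.col (J l)) = 0 := by
  obtain ⟨lam, U, hU, hUh⟩ := exists_eigen hs.diag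
  refine van_span (B := U) (e := lam) (fun J hJ => ?_) hJ fun l => ?_
  · exact ev_eigen ht (fun l => eig_col hUh (J l)) hJ.ne'
  · have h1 : (⨆ r : {r : ℤ // e (J l) ≤ r}, Module.End.eigenspace (Matrix.mulVecLin h) ((r : ℤ) : ℂ)) ≤
        Submodule.span ℂ {v | ∃ i, e (J l) ≤ lam i ∧ v = U.col i} := by
      refine iSup_le fun r v hv => ?_
      rw [Module.End.mem_eigenspace_iff] at hv
      refine Submodule.span_mono ?_ (A1_U hU hUh r v hv)
      rintro _ ⟨i, hi, rfl⟩
      exact ⟨i, r.2.trans hi, rfl⟩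
    exact h1 (hB (J l))

/-- **Transfer.** -/
theorem transfer (hs : IsHS h Q) {B : Matrix E E ℂ} {e : E → ℤ} (hB : A1 h B e) {u : Matrix E E ℂ} (hu : IsUnit u)
    {a : ℕ} {t : (Fin a → E) → ℚ} (h1 : ∀ J : Fin a → E, 0 < ∑ l, e (J l) → ev t (fun l => u *ᵥ B.col (J l)) = 0)
    (h2 : ∀ J : Fin a → E, 0 < ∑ l, e (J l) → ev t (fun l => cm u *ᵥ B.col (J l)) = 0) : Kil (u * h * u⁻¹) t := by
  obtain ⟨lam, U, hU, hUh⟩ := exists_eigen hs.diag
  have huu : u * u⁻¹ = 1 := Matrix.mul_nonsing_inv _ ((Matrix.isUnit_iff_isUnit_det _).1 hu)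
  set G : MultilinearMap ℂ (fun _ : Fin a => E → ℂ) ℂ := (ev t).compLinearMap fun _ => u.mulVecLin with hG
  set G' : MultilinearMap ℂ (fun _ : Fin a => E → ℂ) ℂ := (ev t).compLinearMap fun _ => (cm u).mulVecLin with hG'
  have hGa : ∀ v, G v = ev t fun l => u *ᵥ v l := fun v => rfl
  have hGa' : ∀ v, G' v = ev t fun l => cm u *ᵥ v l := fun v => rfl
  have h0 : ∀ J : Fin a → E, ∑ l, lam (J l) ≠ 0 → G (fun l => U.col (J l)) = 0 := by
    intro J hJ
    rcases lt_or_gt_of_ne hJ with hlt | hgt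
    · -- negative: the conjugate
      have h3 : G' (fun l => cj (U.col (J l))) = 0 := by
        refine van_span (e := e) (B := B) (fun J hJ => h2 J hJ) (s := fun l => -lam (J l)) ?_ fun l => ?_
        · rw [Finset.sum_neg_distrib]
          omega
        · refine hB _ _ ?_
          have h4 : cm h *ᵥ cj (U.col (J l)) = cj (h *ᵥ U.col (J l)) := cm_mulVec _ _
          rw [hs.conj, neg_mulVec, eig_col hUh] at h4
          have h5 : h *ᵥ cj (U.col (J l)) = -cj ((lam (J l) : ℂ) • U.col (J l)) := by rw [← h4, neg_neg]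
          rw [h5]
          funext i
          show -(starRingEnd ℂ) ((lam (J l) : ℂ) * U.col (J l) i) = ((-lam (J l) : ℤ) : ℂ) * (starRingEnd ℂ) (U.col (J l) i)
          rw [map_mul, map_intCast]
          push_cast
          ring
      rw [hGa'] at h3
      have h4 : (fun l => cm u *ᵥ cj (U.col (J l))) = fun l => cj (u *ᵥ U.col (J l)) := by
        funext l
        exact cm_mulVec _ _
      rw [h4, ev_cj] at h3
      rw [hGa]
      exact (map_eq_zero (starRingEnd ℂ)).1 h3
    · refine van_span (e := e) (B := B) (fun J hJ => h1 J hJ) (s := fun l => lam (J l)) hgt fun l => ?_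
      exact hB _ _ (eig_col hUh _)
  -- the derivation
  let D : MultilinearMap ℂ (fun _ : Fin a => E → ℂ) ℂ := ∑ l, G.compLinearMap
    (fun m => if m = l then Matrix.mulVecLin h else LinearMap.id)
  have hD : ∀ v, D v = ∑ l, G (Function.update v l (h *ᵥ v l)) := by
    intro v
    show (∑ l, G.compLinearMap (fun m => if m = l then Matrix.mulVecLin h else LinearMap.id)) v = _
    rw [_root_.sum_apply]
    refine Finset.sum_congr rfl fun l _ => ?_
    rw [MultilinearMap.compLinearMap_apply]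
    congr 1
    funext m
    by_cases hm : m = l
    · subst hm
      rw [if_pos rfl, Function.update_self]
      rfl
    · rw [if_neg hm, Function.update_of_ne hm]
      rfl
  have hD0 : D = 0 := by
    refine ev_ext hU fun J => ?_
    rw [hD, _root_.zero_apply]
    have h3 : ∀ l, G (Function.update (fun l => U.col (J l)) l (h *ᵥ U.col (J l))) =
        (lam (J l) : ℂ) * G fun l => U.col (J l) := by
      intro l
      rw [eig_col hUh, MultilinearMap.map_update_smul, smul_eq_mul]
      congr 2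
      exact Function.update_eq_self l fun l => U.col (J l)
    rw [Finset.sum_congr rfl fun l _ => h3 l, ← Finset.sum_mul]
    by_cases hJ : ∑ l, lam (J l) = 0
    · have h4 : ∑ l, (lam (J l) : ℂ) = 0 := by exact_mod_cast hJ
      rw [h4, zero_mul]
    · rw [h0 J hJ, mul_zero]
  intro v
  have h3 := hD fun l => u⁻¹ *ᵥ v l
  rw [hD0, _root_.zero_apply] at h3
  refine Eq.trans ?_ h3.symm
  refine Finset.sum_congr rfl fun l _ => ?_
  rw [hGa]
  congr 1
  funext m
  by_cases hm : m = l
  · subst hm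
    rw [Function.update_self, Function.update_self, mulVec_mulVec, mulVec_mulVec, Matrix.mul_assoc]
  · rw [Function.update_of_ne hm, Function.update_of_ne hm, mulVec_mulVec, huu, one_mulVec]

end Pool.Agent.E8helper3.HG
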